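import Pool.Agent.Lib.MP_296844_an.Defs

-- part Pool.Agent.Lib.MP_296844_an.Series
section

set_option autoImplicit false

/-! Double power series and their lowest quasihomogeneous parts. -/

namespace Pool.Agent.Lib.MP_296844_an

open Filter Topology Finset

theorem exists_double_series {g : ℝ × ℝ → ℝ} (hg : AnalyticAt ℝ g (0, 0)) :
    ∃ c : ℕ × ℕ → ℝ, ∀ᶠ z in 𝓝 ((0, 0) : ℝ × ℝ),
      HasSum (fun n : ℕ × ℕ => c n * z.1 ^ n.1 * z.2 ^ n.2) (g z) := by
  classical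
  obtain ⟨p, r, hr⟩ := hg
  obtain ⟨r', h0, hr'⟩ := ENNReal.lt_iff_exists_nnreal_btwn.1 hr.r_pos
  have h0' : (0 : ℝ) < r' := by exact_mod_cast h0
  let e : (Σ n : ℕ, Finset (Fin n)) → ℝ := fun x =>
    p x.1 (x.2.piecewise (fun _ => ((1, 0) : ℝ × ℝ)) (fun _ => ((0, 1) : ℝ × ℝ)))
  let κ : (Σ n : ℕ, Finset (Fin n)) → ℕ × ℕ := fun x => (x.2.card, x.1 - x.2.card)
  refine ⟨fun n => ∑' x : κ ⁻¹' {n}, e x, ?_⟩
  have hnb : ∀ᶠ z in 𝓝 ((0, 0) : ℝ × ℝ), |z.1| + |z.2| < (r' : ℝ) := by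
    have hc : Continuous (fun z : ℝ × ℝ => |z.1| + |z.2|) := by fun_prop
    exact hc.continuousAt.eventually_lt continuousAt_const (by simpa using h0')
  filter_upwards [hnb] with z hz
  let T : (Σ n : ℕ, Finset (Fin n)) → ℝ := fun x => e x * z.1 ^ (κ x).1 * z.2 ^ (κ x).2
  have hT : ∀ (n : ℕ) (s : Finset (Fin n)), T ⟨n, s⟩ =
      p n (s.piecewise (fun _ => ((z.1, 0) : ℝ × ℝ)) (fun _ => ((0, z.2) : ℝ × ℝ))) := by
    intro n s
    have h1 : (s.piecewise (fun _ => ((z.1, 0) : ℝ × ℝ)) (fun _ => ((0, z.2) : ℝ × ℝ))) =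
        fun i => (s.piecewise (fun _ => z.1) (fun _ => z.2) i) •
          (s.piecewise (fun _ => ((1, 0) : ℝ × ℝ)) (fun _ => ((0, 1) : ℝ × ℝ)) i) := by
      funext i
      by_cases hi : i ∈ s <;> simp [Finset.piecewise, hi]
    rw [h1, ContinuousMultilinearMap.map_smul_univ, Finset.prod_piecewise]
    simp only [T, e, κ, univ_inter, prod_const, smul_eq_mul, card_sdiff_of_subset (subset_univ s),
      card_univ, Fintype.card_fin]
    ring
  have hsum : ∀ n : ℕ, HasSum (fun s : Finset (Fin n) => T ⟨n, s⟩) (p n fun _ => z) := by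
    intro n
    have h1 : (fun _ : Fin n => z) =
        (fun _ => ((z.1, 0) : ℝ × ℝ)) + (fun _ => ((0, z.2) : ℝ × ℝ)) := by
      funext i; simp
    rw [h1, ContinuousMultilinearMap.map_add_univ]
    simp only [hT]
    exact hasSum_fintype _
  have hbound : ∀ x, ‖T x‖ ≤ ‖p x.1‖ * (|z.1| ^ x.2.card * |z.2| ^ (x.1 - x.2.card)) := by
    rintro ⟨n, s⟩
    have h1 : ‖e ⟨n, s⟩‖ ≤ ‖p n‖ := by
      refine ((p n).le_opNorm _).trans ?_
      have : ∏ i, ‖s.piecewise (fun _ => ((1, 0) : ℝ × ℝ)) (fun _ => ((0, 1) : ℝ × ℝ)) i‖ = 1 := by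
        apply Finset.prod_eq_one
        intro i _
        by_cases hi : i ∈ s <;> simp [Finset.piecewise, hi]
      rw [this, mul_one]
    simp only [T, κ, norm_mul, norm_pow, Real.norm_eq_abs, mul_assoc]
    exact mul_le_mul_of_nonneg_right h1 (by positivity)
  have hS : Summable T := by
    apply Summable.of_norm_bounded _ hbound
    rw [summable_sigma_of_nonneg (fun x => by positivity)]
    refine ⟨fun n => (hasSum_fintype _).summable, ?_⟩
    have h2 : ∀ n : ℕ, ∑' s : Finset (Fin n), ‖p n‖ * (|z.1| ^ s.card * |z.2| ^ (n - s.card)) =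
        ‖p n‖ * (|z.1| + |z.2|) ^ n := by
      intro n
      rw [tsum_fintype, ← Finset.mul_sum, Fin.sum_pow_mul_eq_add_pow]
    simp only [h2]
    refine Summable.of_nonneg_of_le (fun n => by positivity) (fun n => ?_)
      (p.summable_norm_mul_pow (hr'.trans_le hr.r_le))
    gcongr
  have hz' : z ∈ Metric.eball (0 : ℝ × ℝ) r := by
    rw [Metric.mem_eball, edist_zero_right]
    refine lt_trans ?_ hr'
    rw [← ofReal_norm, ← ENNReal.ofReal_coe_nnreal]
    apply (ENNReal.ofReal_lt_ofReal_iff h0').2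
    rw [Prod.norm_def, Real.norm_eq_abs, Real.norm_eq_abs]
    have := abs_nonneg z.1
    have := abs_nonneg z.2
    exact max_lt (by linarith) (by linarith)
  have hg1 := hr.hasSum hz'
  have hg2 : HasSum T (g z) := by
    have h3 := hS.hasSum.sigma hsum
    have h4 := h3.unique hg1
    have h5 : ((0, 0) : ℝ × ℝ) + z = z := by ext <;> simp
    rw [h5] at h4
    rw [← h4]; exact hS.hasSum
  have h6 := hg2.tsum_fiberwise κ
  have h7 : (fun n : ℕ × ℕ => (∑' x : κ ⁻¹' {n}, e x) * z.1 ^ n.1 * z.2 ^ n.2) =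
      fun n : ℕ × ℕ => ∑' x : κ ⁻¹' {n}, T x := by
    funext n
    rw [← tsum_mul_right, ← tsum_mul_right]
    apply tsum_congr
    rintro ⟨x, hx⟩
    have : κ x = n := hx
    simp only [T, this]
  rw [h7]; exact h6

theorem one_dim {c : ℕ → ℝ} {φ : ℝ → ℝ} {m : ℕ} {l : ℝ}
    (h : ∀ᶠ t in 𝓝 (0 : ℝ), HasSum (fun k => c k * t ^ k) (φ t))
    (hl : Tendsto (fun t => φ t / t ^ m) (𝓝[>] 0) (𝓝 l)) :
    (∀ k < m, c k = 0) ∧ c m = l := by
  have hp : HasFPowerSeriesAt φ (FormalMultilinearSeries.ofScalars ℝ c) 0 := by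
    rw [hasFPowerSeriesAt_iff]
    filter_upwards [h] with t ht
    simpa [mul_comm] using ht
  have hO := hp.isBigO_sub_partialSum_pow (m + 1)
  have hps : ∀ t : ℝ, (FormalMultilinearSeries.ofScalars ℝ c).partialSum (m + 1) t =
      ∑ k ∈ range (m + 1), c k * t ^ k := by
    intro t
    simp [FormalMultilinearSeries.partialSum, mul_comm]
  simp only [zero_add, hps] at hO
  have h1 : Tendsto (fun t : ℝ => (φ t - ∑ k ∈ range (m + 1), c k * t ^ k) / t ^ m)
      (𝓝[>] 0) (𝓝 0) := by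
    have h2 : (fun t : ℝ => ‖t‖ ^ (m + 1)) =o[𝓝 0] (fun t : ℝ => t ^ m) := by
      have := Asymptotics.isLittleO_pow_pow (𝕜 := ℝ) (Nat.lt_succ_self m)
      simpa [Asymptotics.isLittleO_iff] using this
    exact ((hO.trans_isLittleO h2).tendsto_div_nhds_zero).mono_left nhdsWithin_le_nhds
  have h3 : Tendsto (fun t : ℝ => (∑ k ∈ range (m + 1), c k * t ^ k) / t ^ m)
      (𝓝[>] 0) (𝓝 l) := by
    have := hl.sub h1
    rw [sub_zero] at this
    refine this.congr (fun t => ?_)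
    ring
  have key : ∀ k ≤ m, (∀ j < k, c j = 0) →
      Tendsto (fun t : ℝ => (∑ j ∈ range (m + 1), c j * t ^ j) / t ^ k) (𝓝[>] 0) (𝓝 (c k)) := by
    intro k hk hj
    have h4 : Tendsto (fun t : ℝ => ∑ j ∈ range (m + 1), c j * t ^ (j - k)) (𝓝[>] 0)
        (𝓝 (∑ j ∈ range (m + 1), c j * (0 : ℝ) ^ (j - k))) := by
      apply Tendsto.mono_left _ nhdsWithin_le_nhds
      apply Continuous.tendsto
      fun_prop
    have h5 : ∑ j ∈ range (m + 1), c j * (0 : ℝ) ^ (j - k) = c k := by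
      rw [Finset.sum_eq_single k]
      · simp
      · intro j _ hjk
        rcases lt_or_gt_of_ne hjk with h6 | h6
        · rw [hj j h6, zero_mul]
        · rw [zero_pow (by omega), mul_zero]
      · intro h6; exact absurd (mem_range.2 (by omega)) h6
    rw [h5] at h4
    refine h4.congr' ?_
    filter_upwards [self_mem_nhdsWithin] with t ht
    have ht' : t ≠ 0 := ne_of_gt ht
    rw [Finset.sum_div]
    apply Finset.sum_congr rfl
    intro j _
    rcases lt_or_ge j k with h6 | h6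
    · rw [hj j h6]; simp
    · rw [mul_div_assoc, pow_sub₀ _ ht' h6, div_eq_mul_inv]
  have hz : ∀ k < m, c k = 0 := by
    intro k
    induction k using Nat.strong_induction_on with
    | _ k ih =>
      intro hk
      have h4 := key k hk.le (fun j hj => ih j hj (by omega))
      have h5 : Tendsto (fun t : ℝ => t ^ (m - k)) (𝓝[>] 0) (𝓝 0) := by
        have : Tendsto (fun t : ℝ => t ^ (m - k)) (𝓝 0) (𝓝 (0 ^ (m - k))) :=
          (continuous_pow _).tendsto 0
        rw [zero_pow (by omega)] at this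
        exact this.mono_left nhdsWithin_le_nhds
      have h6 := h3.mul h5
      rw [mul_zero] at h6
      refine tendsto_nhds_unique h4 (h6.congr' ?_)
      filter_upwards [self_mem_nhdsWithin] with t ht
      have ht' : t ≠ 0 := ne_of_gt ht
      rw [pow_sub₀ _ ht' hk.le]
      field_simp
  exact ⟨hz, tendsto_nhds_unique (key m le_rfl hz) h3⟩

/-- the lattice points on the line `p i + q j = m` -/
def fib (p q m : ℕ) : Finset (ℕ × ℕ) :=
  (range (m + 1) ×ˢ range (m + 1)).filter (fun n => p * n.1 + q * n.2 = m)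

theorem mem_fib {p q m : ℕ} (hp : 0 < p) (hq : 0 < q) (n : ℕ × ℕ) :
    n ∈ fib p q m ↔ p * n.1 + q * n.2 = m := by
  simp only [fib, mem_filter, mem_product, mem_range]
  constructor
  · exact fun h => h.2
  · intro h
    have h1 : n.1 ≤ p * n.1 := Nat.le_mul_of_pos_left _ hp
    have h2 : n.2 ≤ q * n.2 := Nat.le_mul_of_pos_left _ hq
    exact ⟨⟨by omega, by omega⟩, h⟩

theorem coe_fib {p q m : ℕ} (hp : 0 < p) (hq : 0 < q) :
    {n : ℕ × ℕ | p * n.1 + q * n.2 = m} = ↑(fib p q m) := by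
  ext n; simp [mem_fib hp hq]

theorem weighted {g : ℝ × ℝ → ℝ} {c : ℕ × ℕ → ℝ} {p q m : ℕ} (hp : 0 < p) (hq : 0 < q)
    (h : ∀ᶠ z in 𝓝 ((0, 0) : ℝ × ℝ),
      HasSum (fun n : ℕ × ℕ => c n * z.1 ^ n.1 * z.2 ^ n.2) (g z))
    {G : ℝ → ℝ → ℝ}
    (hl : ∀ u v, Tendsto (fun t : ℝ => g (t ^ p * u, t ^ q * v) / t ^ m) (𝓝[>] 0) (𝓝 (G u v))) :
    (∀ n : ℕ × ℕ, p * n.1 + q * n.2 < m → c n = 0) ∧
      ∀ u v, ∑ n ∈ fib p q m, c n * u ^ n.1 * v ^ n.2 = G u v := by
  have main : ∀ u v : ℝ, (∀ k < m, ∑ n ∈ fib p q k, c n * u ^ n.1 * v ^ n.2 = 0) ∧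
      ∑ n ∈ fib p q m, c n * u ^ n.1 * v ^ n.2 = G u v := by
    intro u v
    apply one_dim (c := fun k => ∑ n ∈ fib p q k, c n * u ^ n.1 * v ^ n.2)
      (φ := fun t => g (t ^ p * u, t ^ q * v)) _ (hl u v)
    have ht : Tendsto (fun t : ℝ => (t ^ p * u, t ^ q * v)) (𝓝 0) (𝓝 (0, 0)) := by
      have hc : Continuous (fun t : ℝ => (t ^ p * u, t ^ q * v)) := by fun_prop
      have := hc.tendsto 0
      simpa [zero_pow hp.ne', zero_pow hq.ne'] using this
    filter_upwards [ht.eventually h] with t ht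
    have h6 := ht.tsum_fiberwise (fun n : ℕ × ℕ => p * n.1 + q * n.2)
    refine (congrArg (fun F => HasSum F _) (funext fun k => ?_)).mpr h6
    have e : ((fun n : ℕ × ℕ => p * n.1 + q * n.2) ⁻¹' {k}) = ↑(fib p q k) := coe_fib hp hq
    rw [e, Finset.tsum_subtype' (fib p q k)
      (fun n : ℕ × ℕ => c n * (t ^ p * u) ^ n.1 * (t ^ q * v) ^ n.2), Finset.sum_mul]
    apply Finset.sum_congr rfl
    intro n hn
    rw [← (mem_fib hp hq n).1 hn]
    ring
  refine ⟨?_, fun u v => (main u v).2⟩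
  intro n hn
  set k := p * n.1 + q * n.2 with hk
  let f : Polynomial ℝ := ∑ n' ∈ fib p q k, Polynomial.monomial n'.1 (c n')
  have hf : f = 0 := by
    apply Polynomial.funext
    intro u
    have := (main u 1).1 k hn
    simpa [f, Polynomial.eval_finsetSum] using this
  have hc := congrArg (fun f : Polynomial ℝ => f.coeff n.1) hf
  simp only [f, Polynomial.finsetSum_coeff, Polynomial.coeff_monomial,
    Polynomial.coeff_zero] at hc
  rw [Finset.sum_eq_single n] at hc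
  · simpa using hc
  · intro n' hn' hne
    rw [if_neg]
    intro e
    apply hne
    have h1 := (mem_fib hp hq n').1 hn'
    rw [e, hk] at h1
    have h2 : n'.2 = n.2 := Nat.eq_of_mul_eq_mul_left hq (by omega)
    exact Prod.ext e h2
  · intro hn'
    exact absurd ((mem_fib hp hq n).2 rfl) hn'

end Pool.Agent.Lib.MP_296844_an
end

-- part Pool.Agent.Lib.MP_296844_an.Newton
section

set_option autoImplicit false

/-! Newton diagrams with a single edge. -/

namespace Pool.Agent.Lib.MP_296844_an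

open Filter Topology Finset

theorem exists_expansion {W : ℝ × ℝ → ℝ × ℝ} (hW : AnalyticAt ℝ W (0, 0)) :
    ∃ a b, IsExpansion W a b := by
  obtain ⟨c, hc⟩ := exists_double_series (g := fun z => (W z).1) (analyticAt_fst.comp hW)
  obtain ⟨d, hd⟩ := exists_double_series (g := fun z => (W z).2) (analyticAt_snd.comp hW)
  refine ⟨fun n => if n.2 = 0 then 0 else c (n.1, n.2 - 1),
    fun n => if n.1 = 0 then 0 else d (n.1 - 1, n.2), by simp, by simp, ?_⟩
  filter_upwards [hc, hd] with z h1 h2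
  constructor
  · have hinj : Function.Injective (fun n : ℕ × ℕ => (n.1, n.2 + 1)) := by
      rintro ⟨a, b⟩ ⟨a', b'⟩ h
      simp only [Prod.mk.injEq] at h ⊢
      omega
    rw [← hinj.hasSum_iff]
    · simpa [Function.comp_def] using h1
    · rintro ⟨i, j⟩ h
      have : j = 0 := by
        by_contra hj
        exact h ⟨(i, j - 1), by simp; omega⟩
      simp [this]
  · have hinj : Function.Injective (fun n : ℕ × ℕ => (n.1 + 1, n.2)) := by
      rintro ⟨a, b⟩ ⟨a', b'⟩ h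
      simp only [Prod.mk.injEq] at h ⊢
      omega
    rw [← hinj.hasSum_iff]
    · simpa [Function.comp_def] using h2
    · rintro ⟨i, j⟩ h
      have : i = 0 := by
        by_contra hj
        exact h ⟨(i - 1, j), by simp; omega⟩
      simp [this]

theorem edge_iff {a b : ℕ × ℕ → ℝ} {p q m i0 j0 : ℕ} (hp : 0 < p) (hq : 0 < q)
    (hc : Nat.Coprime p q) (hm : 0 < m) (hi : p * i0 = m) (hj : q * j0 = m)
    (hlow : ∀ n : ℕ × ℕ, (a n ≠ 0 ∨ b n ≠ 0) → m ≤ p * n.1 + q * n.2)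
    (hA : a (0, j0) ≠ 0) (hB : b (i0, 0) ≠ 0) (p' q' : ℕ) :
    IsEdgeWeight a b p' q' ↔ p' = p ∧ q' = q := by
  have hp' : (0 : ℝ) < p := by exact_mod_cast hp
  have hq' : (0 : ℝ) < q := by exact_mod_cast hq
  have hi' : (p : ℝ) * i0 = m := by exact_mod_cast hi
  have hj' : (q : ℝ) * j0 = m := by exact_mod_cast hj
  have hm' : (0 : ℝ) < m := by exact_mod_cast hm
  have hN : ∀ z ∈ newtonPolygon a b, 0 ≤ z.1 ∧ 0 ≤ z.2 ∧ (m : ℝ) ≤ p * z.1 + q * z.2 := by
    have hconv : Convex ℝ {z : ℝ × ℝ | 0 ≤ z.1 ∧ 0 ≤ z.2 ∧ (m : ℝ) ≤ p * z.1 + q * z.2} := by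
      intro x hx y hy s t hs ht hst
      simp only [Set.mem_ofPred_eq, Prod.fst_add, Prod.snd_add, Prod.smul_fst, Prod.smul_snd,
        smul_eq_mul] at hx hy ⊢
      refine ⟨by nlinarith [hx.1, hy.1], by nlinarith [hx.2.1, hy.2.1], ?_⟩
      have e1 := mul_le_mul_of_nonneg_left hx.2.2 hs
      have e2 := mul_le_mul_of_nonneg_left hy.2.2 ht
      have e3 : (m : ℝ) = s * m + t * m := by rw [← add_mul, hst, one_mul]
      nlinarith
    intro z hz
    refine convexHull_min ?_ hconv hz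
    rintro w ⟨n, hn, h1, h2⟩
    have h3 : (m : ℝ) ≤ p * n.1 + q * n.2 := by exact_mod_cast hlow n hn
    have h4 : (0 : ℝ) ≤ n.1 := Nat.cast_nonneg _
    have h5 : (0 : ℝ) ≤ n.2 := Nat.cast_nonneg _
    refine ⟨by linarith, by linarith, ?_⟩
    nlinarith
  have hAm : ((0, j0) : ℝ × ℝ) ∈ newtonPolygon a b :=
    subset_convexHull ℝ _ ⟨(0, j0), Or.inl hA, by simp, by simp⟩
  have hBm : ((i0, 0) : ℝ × ℝ) ∈ newtonPolygon a b :=
    subset_convexHull ℝ _ ⟨(i0, 0), Or.inr hB, by simp, by simp⟩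
  constructor
  · rintro ⟨h1, h2, h3, μ, hμ, z, ⟨hz, hz'⟩, w, ⟨hw, hw'⟩, hzw⟩
    have h1' : (0 : ℝ) < p' := by exact_mod_cast h1
    have h2' : (0 : ℝ) < q' := by exact_mod_cast h2
    have eA := hμ _ hAm
    have eB := hμ _ hBm
    simp only [mul_zero, zero_add, add_zero] at eA eB
    obtain ⟨z1, z2, z3⟩ := hN z hz
    obtain ⟨w1, w2, w3⟩ := hN w hw
    have key : (p' : ℝ) * q = q' * p := by
      by_contra hne
      apply hzw
      rcases lt_or_gt_of_ne hne with hlt | hlt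
      · have eB' : μ * p ≤ p' * m := by rw [← hi']; nlinarith
        have a1 : z.2 = 0 := by
          by_contra h0
          have : 0 < z.2 := lt_of_le_of_ne z2 (Ne.symm h0)
          nlinarith [mul_le_mul_of_nonneg_left z3 h1'.le, mul_pos (sub_pos.2 hlt) this]
        have a2 : w.2 = 0 := by
          by_contra h0
          have : 0 < w.2 := lt_of_le_of_ne w2 (Ne.symm h0)
          nlinarith [mul_le_mul_of_nonneg_left w3 h1'.le, mul_pos (sub_pos.2 hlt) this]
        rw [a1] at hz'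
        rw [a2] at hw'
        refine Prod.ext (mul_left_cancel₀ h1'.ne' (by linarith)) (by rw [a1, a2])
      · have eA' : μ * q ≤ q' * m := by rw [← hj']; nlinarith
        have a1 : z.1 = 0 := by
          by_contra h0
          have : 0 < z.1 := lt_of_le_of_ne z1 (Ne.symm h0)
          nlinarith [mul_le_mul_of_nonneg_left z3 h2'.le, mul_pos (sub_pos.2 hlt) this]
        have a2 : w.1 = 0 := by
          by_contra h0
          have : 0 < w.1 := lt_of_le_of_ne w1 (Ne.symm h0)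
          nlinarith [mul_le_mul_of_nonneg_left w3 h2'.le, mul_pos (sub_pos.2 hlt) this]
        rw [a1] at hz'
        rw [a2] at hw'
        refine Prod.ext (by rw [a1, a2]) (mul_left_cancel₀ h2'.ne' (by linarith))
    have key' : p' * q = q' * p := by exact_mod_cast key
    have d1 : p' ∣ p := h3.dvd_of_dvd_mul_left ⟨q, key'.symm⟩
    have d2 : p ∣ p' := hc.dvd_of_dvd_mul_right ⟨q', by rw [key', mul_comm]⟩
    have e1 : p' = p := Nat.dvd_antisymm d1 d2
    refine ⟨e1, ?_⟩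
    rw [e1, mul_comm q' p] at key'
    exact (Nat.eq_of_mul_eq_mul_left hp key').symm
  · rintro ⟨rfl, rfl⟩
    refine ⟨hp, hq, hc, m, fun z hz => (hN z hz).2.2, (0, j0), ⟨hAm, by simpa using hj'⟩,
      (i0, 0), ⟨hBm, by simpa using hi'⟩, ?_⟩
    intro h
    have h1 : (j0 : ℝ) = 0 := congrArg Prod.snd h
    rw [h1, mul_zero] at hj'
    linarith

theorem newton_single {W : ℝ × ℝ → ℝ × ℝ} {a b : ℕ × ℕ → ℝ} (hE : IsExpansion W a b)
    {p q r i0 j0 : ℕ} (hp : 0 < p) (hq : 0 < q) (hc : Nat.Coprime p q)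
    (hi : p * i0 = p + q + r) (hj : q * j0 = p + q + r) {Pl Ql : ℝ → ℝ → ℝ}
    (cP : ∀ u, Continuous (fun v => Pl u v)) (cQ : ∀ v, Continuous (fun u => Ql u v))
    (h1 : ∀ u v, Tendsto (fun t : ℝ => (W (t ^ p * u, t ^ q * v)).1 / t ^ (p + r)) (𝓝[>] 0)
      (𝓝 (Pl u v)))
    (h2 : ∀ u v, Tendsto (fun t : ℝ => (W (t ^ p * u, t ^ q * v)).2 / t ^ (q + r)) (𝓝[>] 0)
      (𝓝 (Ql u v)))
    (hP : Pl 0 1 ≠ 0) (hQ : Ql 1 0 ≠ 0) :
    (∀ p' q', IsEdgeWeight a b p' q' ↔ p' = p ∧ q' = q) ∧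
      leadP a b p q = Pl ∧ leadQ a b p q = Ql := by
  obtain ⟨ha0, hb0, hE⟩ := hE
  set m := p + q + r with hm
  have sa : ∀ (n : ℕ × ℕ) (x y : ℝ), a n * x ^ n.1 * y ^ (n.2 - 1) * y = a n * x ^ n.1 * y ^ n.2 := by
    rintro ⟨i, j⟩ x y
    rcases j with _ | j
    · simp [ha0]
    · simp [pow_succ, mul_assoc]
  have sb : ∀ (n : ℕ × ℕ) (x y : ℝ), b n * x ^ (n.1 - 1) * y ^ n.2 * x = b n * x ^ n.1 * y ^ n.2 := by
    rintro ⟨i, j⟩ x y
    rcases i with _ | i
    · simp [hb0]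
    · simp only [Nat.add_sub_cancel, pow_succ]; ring
  have wa := weighted (g := fun z => (W z).1 * z.2) (c := a) (m := m) hp hq
    (hE.mono fun z hz => by simpa only [sa] using hz.1.mul_right z.2)
    (G := fun u v => Pl u v * v) (fun u v => by
      refine ((h1 u v).mul_const v).congr' ?_
      filter_upwards [self_mem_nhdsWithin] with t ht
      have ht' : t ≠ 0 := ne_of_gt ht
      simp only [hm, pow_add]
      field_simp)
  have wb := weighted (g := fun z => (W z).2 * z.1) (c := b) (m := m) hp hq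
    (hE.mono fun z hz => by simpa only [sb] using hz.2.mul_right z.1)
    (G := fun u v => Ql u v * u) (fun u v => by
      refine ((h2 u v).mul_const u).congr' ?_
      filter_upwards [self_mem_nhdsWithin] with t ht
      have ht' : t ≠ 0 := ne_of_gt ht
      simp only [hm, pow_add]
      field_simp)
  have hlow : ∀ n : ℕ × ℕ, (a n ≠ 0 ∨ b n ≠ 0) → m ≤ p * n.1 + q * n.2 := by
    intro n hn
    by_contra hlt
    rw [not_le] at hlt
    rcases hn with hn | hn
    · exact hn (wa.1 n hlt)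
    · exact hn (wb.1 n hlt)
  have hA : a (0, j0) ≠ 0 := by
    have h3 := wa.2 0 1
    rw [Finset.sum_eq_single (0, j0)] at h3
    · simp only [pow_zero, mul_one, one_pow] at h3
      rw [h3]; exact hP
    · rintro ⟨i, j⟩ hn hne
      have h4 := (mem_fib hp hq _).1 hn
      have : i ≠ 0 := by
        rintro rfl
        apply hne
        simp only [mul_zero, zero_add] at h4
        rw [Nat.eq_of_mul_eq_mul_left hq (h4.trans hj.symm)]
      simp [this]
    · intro h; exact absurd ((mem_fib hp hq _).2 (by simpa using hj)) h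
  have hB : b (i0, 0) ≠ 0 := by
    have h3 := wb.2 1 0
    rw [Finset.sum_eq_single (i0, 0)] at h3
    · simp only [pow_zero, mul_one, one_pow] at h3
      rw [h3]; exact hQ
    · rintro ⟨i, j⟩ hn hne
      have h4 := (mem_fib hp hq _).1 hn
      have : j ≠ 0 := by
        rintro rfl
        apply hne
        simp only [mul_zero, add_zero] at h4
        rw [Nat.eq_of_mul_eq_mul_left hp (h4.trans hi.symm)]
      simp [this]
    · intro h; exact absurd ((mem_fib hp hq _).2 (by simpa using hi)) h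
  have hlev : level a b p q = m := by
    apply le_antisymm
    · exact Nat.sInf_le ⟨(0, j0), Or.inl hA, by simpa using hj⟩
    · unfold level
      refine le_csInf ⟨m, (0, j0), Or.inl hA, by simpa using hj⟩ ?_
      rintro k ⟨n, hn, rfl⟩
      exact hlow n hn
  have hd : Dense ({0}ᶜ : Set ℝ) := dense_compl_singleton 0
  refine ⟨edge_iff hp hq hc (by omega) hi hj hlow hA hB, ?_, ?_⟩
  · funext u
    have e : ∀ v, leadP a b p q u v = ∑ n ∈ fib p q m, a n * u ^ n.1 * v ^ (n.2 - 1) := by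
      intro v
      unfold leadP
      rw [hlev, coe_fib hp hq, finsum_mem_coe_finset]
    rw [funext e]
    refine Continuous.ext_on hd (by fun_prop) (cP u) ?_
    intro v hv
    apply mul_right_cancel₀ (show v ≠ 0 from hv)
    rw [← wa.2 u v, Finset.sum_mul]
    simp only [sa]
  · funext u v
    have e : ∀ u, leadQ a b p q u v = ∑ n ∈ fib p q m, b n * u ^ (n.1 - 1) * v ^ n.2 := by
      intro u
      unfold leadQ
      rw [hlev, coe_fib hp hq, finsum_mem_coe_finset]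
    rw [e]
    refine congrFun (Continuous.ext_on hd
      (f := fun u => ∑ n ∈ fib p q m, b n * u ^ (n.1 - 1) * v ^ n.2) (by fun_prop) (cQ v) ?_) u
    intro u hu
    apply mul_right_cancel₀ (show u ≠ 0 from hu)
    rw [← wb.2 u v, Finset.sum_mul]
    simp only [sb]

end Pool.Agent.Lib.MP_296844_an
end

-- part Pool.Agent.Lib.MP_296844_an.Limits
section

set_option autoImplicit false

/-! Weighted scaling limits. -/

namespace Pool.Agent.Lib.MP_296844_an

open Filter Topology Real Asymptotics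

theorem taylor_two {g : ℝ × ℝ → ℝ} (hg : AnalyticAt ℝ g (0, 0)) :
    (fun w => g w - g (0, 0) - fderiv ℝ g (0, 0) w) =O[𝓝 0] fun w : ℝ × ℝ => ‖w‖ ^ 2 := by
  obtain ⟨p, hp⟩ := hg
  refine (hp.isBigO_sub_partialSum_pow 2).congr_left fun w => ?_
  have h0 : ((0, 0) : ℝ × ℝ) + w = w := by ext <;> simp
  have h1 : p 1 (fun _ => w) = fderiv ℝ g (0, 0) w := by
    rw [hp.fderiv_eq]
    simp only [continuousMultilinearCurryFin1_apply]
    congr 1
  rw [h0, FormalMultilinearSeries.partialSum, Finset.sum_range_succ, Finset.sum_range_one,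
    hp.coeff_zero, h1]
  ring

theorem pow_isBigO {j p : ℕ} (h : j ≤ p) : (fun t : ℝ => t ^ p) =O[𝓝 0] fun t : ℝ => t ^ j := by
  rcases h.eq_or_lt with rfl | h
  · exact isBigO_refl _ _
  · exact (isLittleO_pow_pow h).isBigO

theorem tendsto_scale {p q : ℕ} (hp : 0 < p) (hq : 0 < q) (u v : ℝ) :
    Tendsto (fun t : ℝ => (t ^ p * u, t ^ q * v)) (𝓝 0) (𝓝 (0, 0)) := by
  have hc : Continuous (fun t : ℝ => (t ^ p * u, t ^ q * v)) := by fun_prop
  have := hc.tendsto 0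
  simpa [zero_pow hp.ne', zero_pow hq.ne'] using this

theorem clm_apply (D : (ℝ × ℝ) →L[ℝ] ℝ) (x y : ℝ) : D (x, y) = D (1, 0) * x + D (0, 1) * y := by
  have : ((x, y) : ℝ × ℝ) = x • ((1, 0) : ℝ × ℝ) + y • ((0, 1) : ℝ × ℝ) := by simp
  rw [this, map_add, map_smul, map_smul, smul_eq_mul, smul_eq_mul]
  ring

theorem lim_lin {g : ℝ × ℝ → ℝ} (hg : AnalyticAt ℝ g (0, 0)) (hg0 : g (0, 0) = 0)
    {p q j k : ℕ} (hp : j ≤ p) (hq : j ≤ q) (hk : k < 2 * j) (u v l : ℝ)
    (h : Tendsto (fun t : ℝ => (fderiv ℝ g (0, 0) (1, 0) * (t ^ p * u) +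
      fderiv ℝ g (0, 0) (0, 1) * (t ^ q * v)) / t ^ k) (𝓝[>] 0) (𝓝 l)) :
    Tendsto (fun t : ℝ => g (t ^ p * u, t ^ q * v) / t ^ k) (𝓝[>] 0) (𝓝 l) := by
  have h1 := (taylor_two hg).comp_tendsto (tendsto_scale (by omega) (by omega) u v (p := p) (q := q))
  have h2 : (fun t : ℝ => (t ^ p * u, t ^ q * v)) =O[𝓝 0] fun t : ℝ => t ^ j := by
    apply IsBigO.prod_left
    · simpa [mul_comm] using (pow_isBigO hp).const_mul_left u
    · simpa [mul_comm] using (pow_isBigO hq).const_mul_left v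
  have h3 : (fun t : ℝ => ‖(t ^ p * u, t ^ q * v)‖ ^ 2) =o[𝓝 0] fun t : ℝ => t ^ k := by
    refine (h2.norm_left.pow 2).trans_isLittleO ?_
    simp only [← pow_mul]
    exact isLittleO_pow_pow (by omega)
  have h4 := ((h1.trans_isLittleO h3).tendsto_div_nhds_zero).mono_left
    (nhdsWithin_le_nhds (s := Set.Ioi 0))
  have h5 := h4.add h
  rw [zero_add] at h5
  refine h5.congr fun t => ?_
  simp only [Function.comp, hg0]
  rw [clm_apply (fderiv ℝ g (0, 0)) (t ^ p * u) (t ^ q * v)]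
  ring

theorem tendsto_id_gt : Tendsto (fun t : ℝ => t) (𝓝[>] 0) (𝓝 0) :=
  tendsto_id.mono_left nhdsWithin_le_nhds

theorem lim_homog {X Y α β : ℝ → ℝ} {x0 y0 α0 β0 : ℝ}
    (hX : Tendsto (fun t => X t / t ^ 1) (𝓝[>] 0) (𝓝 x0))
    (hY : Tendsto (fun t => Y t / t ^ 1) (𝓝[>] 0) (𝓝 y0))
    (hα : Tendsto α (𝓝[>] 0) (𝓝 α0)) (hβ : Tendsto β (𝓝[>] 0) (𝓝 β0)) :
    Tendsto (fun t => (α t * (cuspField (X t, Y t)).1 + β t * (cuspField (X t, Y t)).2) / t ^ 3)
      (𝓝[>] 0) (𝓝 (α0 * (-2 * y0 ^ 3))) := by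
  let H : ℝ × ℝ × ℝ × ℝ × ℝ → ℝ := fun ⟨t, x, y, a, b⟩ =>
    a * (-2 * y ^ 3 + t * (2 * x ^ 3 * y - x ^ 2 * y ^ 2) - t ^ 2 * (x ^ 4 * y + x ^ 5)) +
    b * (t * (-3 * x ^ 2 * y ^ 2 - 2 * x * y ^ 3) + t ^ 2 * (3 * x ^ 5 + 2 * x ^ 3 * y ^ 2 - x ^ 4 * y))
  have hH : Continuous H := by fun_prop
  have h1 := (hH.tendsto _).comp
    (tendsto_id_gt.prodMk_nhds (hX.prodMk_nhds (hY.prodMk_nhds (hα.prodMk_nhds hβ))))
  have e : H (0, x0, y0, α0, β0) = α0 * (-2 * y0 ^ 3) := by simp [H]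
  rw [e] at h1
  refine h1.congr' ?_
  filter_upwards [self_mem_nhdsWithin] with t ht
  have ht' : t ≠ 0 := ne_of_gt ht
  simp only [H, Function.comp, cuspField]
  field_simp
  ring

theorem lim_nine {X Y α β : ℝ → ℝ} {x0 y0 α0 β0 : ℝ}
    (hX : Tendsto (fun t => X t / t ^ 2) (𝓝[>] 0) (𝓝 x0))
    (hY : Tendsto (fun t => Y t / t ^ 3) (𝓝[>] 0) (𝓝 y0))
    (hα : Tendsto α (𝓝[>] 0) (𝓝 α0)) (hβ : Tendsto β (𝓝[>] 0) (𝓝 β0)) :
    Tendsto (fun t => (α t * (cuspField (X t, Y t)).1 + β t * (cuspField (X t, Y t)).2) / t ^ 9)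
      (𝓝[>] 0) (𝓝 (α0 * (-2 * y0 ^ 3 + 2 * x0 ^ 3 * y0))) := by
  let H : ℝ × ℝ × ℝ × ℝ × ℝ → ℝ := fun ⟨t, x, y, a, b⟩ =>
    a * (-2 * y ^ 3 + 2 * x ^ 3 * y - t * (x ^ 2 * y ^ 2 + x ^ 5) - t ^ 2 * (x ^ 4 * y)) +
    b * t * (3 * x ^ 5 - 3 * x ^ 2 * y ^ 2 - t * (2 * x * y ^ 3 + x ^ 4 * y) +
      t ^ 2 * (2 * x ^ 3 * y ^ 2))
  have hH : Continuous H := by fun_prop
  have h1 := (hH.tendsto _).comp
    (tendsto_id_gt.prodMk_nhds (hX.prodMk_nhds (hY.prodMk_nhds (hα.prodMk_nhds hβ))))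
  have e : H (0, x0, y0, α0, β0) = α0 * (-2 * y0 ^ 3 + 2 * x0 ^ 3 * y0) := by simp [H]
  rw [e] at h1
  refine h1.congr' ?_
  filter_upwards [self_mem_nhdsWithin] with t ht
  have ht' : t ≠ 0 := ne_of_gt ht
  simp only [H, Function.comp, cuspField]
  field_simp
  ring

theorem lim_ten {X Y α β : ℝ → ℝ} {x0 y0 β0 : ℝ}
    (hX : Tendsto (fun t => X t / t ^ 2) (𝓝[>] 0) (𝓝 x0))
    (hY : Tendsto (fun t => Y t / t ^ 3) (𝓝[>] 0) (𝓝 y0))
    (hα : Tendsto (fun t => α t / t ^ 1) (𝓝[>] 0) (𝓝 0)) (hβ : Tendsto β (𝓝[>] 0) (𝓝 β0)) :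
    Tendsto (fun t => (α t * (cuspField (X t, Y t)).1 + β t * (cuspField (X t, Y t)).2) / t ^ 10)
      (𝓝[>] 0) (𝓝 (β0 * (3 * x0 ^ 5 - 3 * x0 ^ 2 * y0 ^ 2))) := by
  let H : ℝ × ℝ × ℝ × ℝ × ℝ → ℝ := fun ⟨t, x, y, a, b⟩ =>
    a * (-2 * y ^ 3 + 2 * x ^ 3 * y - t * (x ^ 2 * y ^ 2 + x ^ 5) - t ^ 2 * (x ^ 4 * y)) +
    b * (3 * x ^ 5 - 3 * x ^ 2 * y ^ 2 - t * (2 * x * y ^ 3 + x ^ 4 * y) +
      t ^ 2 * (2 * x ^ 3 * y ^ 2))
  have hH : Continuous H := by fun_prop
  have h1 := (hH.tendsto _).comp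
    (tendsto_id_gt.prodMk_nhds (hX.prodMk_nhds (hY.prodMk_nhds (hα.prodMk_nhds hβ))))
  have e : H (0, x0, y0, 0, β0) = β0 * (3 * x0 ^ 5 - 3 * x0 ^ 2 * y0 ^ 2) := by simp [H]
  rw [e] at h1
  refine h1.congr' ?_
  filter_upwards [self_mem_nhdsWithin] with t ht
  have ht' : t ≠ 0 := ne_of_gt ht
  simp only [H, Function.comp, cuspField]
  field_simp
  ring

theorem lim_poly {f : ℝ → ℝ} {A : ℝ} (B C : ℝ) {k : ℕ}
    (h : ∀ t : ℝ, t ≠ 0 → f t / t ^ k = A + t * (B + t * C)) :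
    Tendsto (fun t : ℝ => f t / t ^ k) (𝓝[>] 0) (𝓝 A) := by
  have h1 : Tendsto (fun t : ℝ => A + t * (B + t * C)) (𝓝[>] 0) (𝓝 (A + 0 * (B + 0 * C))) :=
    (tendsto_id_gt.mul ((tendsto_id_gt.mul_const C).const_add B)).const_add A
  rw [zero_mul, add_zero] at h1
  refine h1.congr' ?_
  filter_upwards [self_mem_nhdsWithin] with t ht
  rw [h t (ne_of_gt ht)]

theorem eventually_ne_of_scale {f : ℝ → ℝ} {p k : ℕ} (hp : 0 < p) {l : ℝ} (hl : l ≠ 0)
    (h : Tendsto (fun t : ℝ => f (t ^ p) / t ^ k) (𝓝[>] 0) (𝓝 l)) :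
    ∀ᶠ x in 𝓝[>] (0 : ℝ), f x ≠ 0 := by
  have h1 : Tendsto (fun x : ℝ => x ^ ((p : ℝ)⁻¹)) (𝓝[>] 0) (𝓝[>] 0) := by
    rw [tendsto_nhdsWithin_iff]
    have hp' : (0 : ℝ) < (p : ℝ)⁻¹ := by positivity
    constructor
    · have := (Real.continuousAt_rpow_const 0 ((p : ℝ)⁻¹) (Or.inr hp'.le)).tendsto
      rw [Real.zero_rpow hp'.ne'] at this
      exact this.mono_left nhdsWithin_le_nhds
    · filter_upwards [self_mem_nhdsWithin] with x hx using Real.rpow_pos_of_pos hx _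
  filter_upwards [h1.eventually (h.eventually_ne hl), self_mem_nhdsWithin] with x hx hx0
  rw [Real.rpow_inv_natCast_pow (le_of_lt hx0) hp.ne'] at hx
  intro h0
  rw [h0, zero_div] at hx
  exact hx rfl

end Pool.Agent.Lib.MP_296844_an
end

-- part Pool.Agent.Lib.MP_296844_an.PV
section

set_option autoImplicit false

/-! Principal values that vanish by a reflection symmetry. -/

namespace Pool.Agent.Lib.MP_296844_an

open Filter Topology MeasureTheory Real

theorem hasPV_zero {F G : ℝ → ℝ} (φ0 : ℝ) (cF : Continuous F)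
    (aG : AnalyticOnNhd ℝ G Set.univ) (hG0 : G 0 ≠ 0)
    (pF : Function.Periodic F (2 * π)) (pG : Function.Periodic G (2 * π))
    (sF : ∀ φ, F (2 * φ0 - φ) = - F φ) (sG : ∀ φ, G (2 * φ0 - φ) = G φ) : HasPV F G 0 := by
  have cG : Continuous G := continuousOn_univ.1 aG.continuousOn
  have hcl : ∀ ε : ℝ, IsClosed {φ : ℝ | ∀ ψ, G ψ = 0 → ε ≤ |φ - ψ|} := by
    intro ε
    have : {φ : ℝ | ∀ ψ, G ψ = 0 → ε ≤ |φ - ψ|} = ⋂ ψ ∈ {ψ | G ψ = 0}, {φ : ℝ | ε ≤ |φ - ψ|} := by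
      ext φ; simp
    rw [this]
    exact isClosed_biInter fun ψ _ => isClosed_le continuous_const (by fun_prop)
  refine ⟨?_, ?_, ?_⟩
  · have h1 := AnalyticOnNhd.preimage_zero_mem_codiscreteWithin
      (aG.mono (Set.subset_univ (Set.Icc 0 (2 * π)))) hG0
      (Set.left_mem_Icc.2 (by positivity)) (isConnected_Icc (by positivity))
    have h2 := isCompact_Icc.finite_sdiff_of_mem_codiscreteWithin h1
    refine h2.subset ?_
    intro φ hφ
    exact ⟨hφ.1, by simpa using hφ.2⟩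
  · intro ε hε
    apply ContinuousOn.integrableOn_compact (isCompact_Icc.inter_right (hcl ε))
    apply cF.continuousOn.div cG.continuousOn
    intro φ hφ h0
    have := hφ.2 φ h0
    simp only [sub_self, abs_zero] at this
    linarith
  · have key : ∀ ε : ℝ, ∫ φ in {φ ∈ Set.Icc 0 (2 * π) | ∀ ψ, G ψ = 0 → ε ≤ |φ - ψ|},
        F φ / G φ = 0 := by
      intro ε
      set S := {φ : ℝ | ∀ ψ, G ψ = 0 → ε ≤ |φ - ψ|} with hS
      set k : ℝ → ℝ := S.indicator (fun φ => F φ / G φ) with hk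
      have e1 : ∫ φ in {φ ∈ Set.Icc 0 (2 * π) | ∀ ψ, G ψ = 0 → ε ≤ |φ - ψ|}, F φ / G φ =
          ∫ φ in (0 : ℝ)..0 + 2 * π, k φ := by
        rw [zero_add, intervalIntegral.integral_of_le (by positivity),
          ← integral_Icc_eq_integral_Ioc, hk, setIntegral_indicator (hcl ε).measurableSet]
        rfl
      have pk : Function.Periodic k (2 * π) := by
        intro φ
        have : φ + 2 * π ∈ S ↔ φ ∈ S := by
          constructor
          · intro h ψ hψ
            have := h (ψ + 2 * π) (by rw [pG ψ, hψ])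
            rwa [add_sub_add_right_eq_sub] at this
          · intro h ψ hψ
            have := h (ψ - 2 * π) (by rw [pG.sub_eq ψ, hψ])
            rwa [show φ - (ψ - 2 * π) = φ + 2 * π - ψ by ring] at this
        by_cases h : φ ∈ S
        · rw [hk, Set.indicator_of_mem h, Set.indicator_of_mem (this.2 h), pF φ, pG φ]
        · rw [hk, Set.indicator_of_notMem h, Set.indicator_of_notMem (fun h' => h (this.1 h'))]
      have sk : ∀ φ, k (2 * φ0 - φ) = - k φ := by
        intro φ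
        have imp : ∀ φ, φ ∈ S → 2 * φ0 - φ ∈ S := by
          intro φ h ψ hψ
          have := h (2 * φ0 - ψ) (by rw [sG ψ, hψ])
          rwa [show φ - (2 * φ0 - ψ) = -(2 * φ0 - φ - ψ) by ring, abs_neg] at this
        by_cases h : φ ∈ S
        · rw [hk, Set.indicator_of_mem h, Set.indicator_of_mem (imp φ h), sF φ, sG φ, neg_div]
        · rw [hk, Set.indicator_of_notMem h, Set.indicator_of_notMem, neg_zero]
          intro h'
          have := imp _ h'
          rw [sub_sub_cancel] at this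
          exact h this
      rw [e1, pk.intervalIntegral_add_eq 0 (φ0 - π)]
      have e2 := intervalIntegral.integral_comp_sub_left (a := φ0 - π) (b := φ0 - π + 2 * π) k
        (2 * φ0)
      simp only [sk, intervalIntegral.integral_neg] at e2
      rw [show 2 * φ0 - (φ0 - π + 2 * π) = φ0 - π by ring,
        show 2 * φ0 - (φ0 - π) = φ0 - π + 2 * π by ring] at e2
      linarith
    simp only [key]
    exact tendsto_const_nhds

end Pool.Agent.Lib.MP_296844_an
end
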