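import Pool.Agent.Lib.MP_296844_an.Curve
import Pool.Agent.Lib.MP_296844_an.PV



set_option autoImplicit false

/-! The example in an arbitrary analytic chart. -/

namespace Pool.Agent.Lib.MP_296844_an

open Filter Topology Real Asymptotics ContDiff

structure IsChart (Ψ : OpenPartialHomeomorph (ℝ × ℝ) (ℝ × ℝ)) : Prop where
  mem : ((0, 0) : ℝ × ℝ) ∈ Ψ.source
  zero : Ψ (0, 0) = (0, 0)
  an : AnalyticOnNhd ℝ Ψ Ψ.source
  an' : AnalyticOnNhd ℝ Ψ.symm Ψ.target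

noncomputable def push (Ψ : OpenPartialHomeomorph (ℝ × ℝ) (ℝ × ℝ)) (w : ℝ × ℝ) : ℝ × ℝ :=
  fderiv ℝ Ψ (Ψ.symm w) (cuspField (Ψ.symm w))

variable {Ψ : OpenPartialHomeomorph (ℝ × ℝ) (ℝ × ℝ)}

theorem IsChart.mem' (h : IsChart Ψ) : ((0, 0) : ℝ × ℝ) ∈ Ψ.target := by
  have := Ψ.map_source h.mem
  rwa [h.zero] at this

theorem IsChart.zero' (h : IsChart Ψ) : Ψ.symm (0, 0) = (0, 0) := by
  have := Ψ.left_inv h.mem
  rwa [h.zero] at this

theorem IsChart.aχ (h : IsChart Ψ) : AnalyticAt ℝ Ψ.symm (0, 0) := h.an' _ h.mem'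

theorem IsChart.aD (h : IsChart Ψ) (e : ℝ × ℝ) :
    AnalyticAt ℝ (fun w => fderiv ℝ Ψ (Ψ.symm w) e) (0, 0) := by
  have h1 : AnalyticAt ℝ (fderiv ℝ Ψ) (Ψ.symm (0, 0)) := by
    rw [h.zero']; exact (h.an _ h.mem).fderiv
  exact ((ContinuousLinearMap.apply ℝ (ℝ × ℝ) e).analyticAt _).comp (h1.comp h.aχ)

theorem push_eq (w : ℝ × ℝ) : push Ψ w =
    ((fderiv ℝ Ψ (Ψ.symm w) (1, 0)).1 * (cuspField ((Ψ.symm w).1, (Ψ.symm w).2)).1 +
      (fderiv ℝ Ψ (Ψ.symm w) (0, 1)).1 * (cuspField ((Ψ.symm w).1, (Ψ.symm w).2)).2,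
    (fderiv ℝ Ψ (Ψ.symm w) (1, 0)).2 * (cuspField ((Ψ.symm w).1, (Ψ.symm w).2)).1 +
      (fderiv ℝ Ψ (Ψ.symm w) (0, 1)).2 * (cuspField ((Ψ.symm w).1, (Ψ.symm w).2)).2) := by
  unfold push
  generalize fderiv ℝ Ψ (Ψ.symm w) = D
  rw [Prod.mk.eta]
  generalize cuspField (Ψ.symm w) = v
  have : v = v.1 • ((1, 0) : ℝ × ℝ) + v.2 • ((0, 1) : ℝ × ℝ) := by simp
  conv_lhs => rw [this, map_add, map_smul, map_smul]
  ext <;> simp [mul_comm]

theorem analytic_cusp (z : ℝ × ℝ) : AnalyticAt ℝ cuspField z := by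
  have h : ContDiff ℝ ω cuspField := by
    unfold cuspField
    fun_prop
  exact h.contDiffAt.analyticAt

theorem IsChart.aW (h : IsChart Ψ) : AnalyticAt ℝ (push Ψ) (0, 0) := by
  have e : push Ψ = fun w => _ := funext (push_eq (Ψ := Ψ))
  rw [e]
  have h1 := h.aD (1, 0)
  have h2 := h.aD (0, 1)
  have h3 : AnalyticAt ℝ (fun w => cuspField ((Ψ.symm w).1, (Ψ.symm w).2)) (0, 0) :=
    (analytic_cusp _).comp h.aχ
  exact (((analyticAt_fst.comp h1).mul (analyticAt_fst.comp h3)).add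
    ((analyticAt_fst.comp h2).mul (analyticAt_snd.comp h3))).prod
    (((analyticAt_snd.comp h1).mul (analyticAt_fst.comp h3)).add
    ((analyticAt_snd.comp h2).mul (analyticAt_snd.comp h3)))

theorem IsChart.inv (h : IsChart Ψ) (e : ℝ × ℝ) :
    fderiv ℝ Ψ (0, 0) (fderiv ℝ Ψ.symm (0, 0) e) = e := by
  have h1 : HasFDerivAt Ψ (fderiv ℝ Ψ (0, 0)) (Ψ.symm (0, 0)) := by
    rw [h.zero']; exact (h.an _ h.mem).differentiableAt.hasFDerivAt
  have h2 := h1.comp (0, 0) h.aχ.differentiableAt.hasFDerivAt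
  have h3 : HasFDerivAt (Ψ ∘ Ψ.symm) (ContinuousLinearMap.id ℝ (ℝ × ℝ)) (0, 0) :=
    (hasFDerivAt_id _).congr_of_eventuallyEq (Ψ.eventually_right_inverse h.mem')
  exact congrArg (fun D : (ℝ × ℝ) →L[ℝ] (ℝ × ℝ) => D e) (h2.unique h3)

theorem clm_apply' (D : (ℝ × ℝ) →L[ℝ] (ℝ × ℝ)) (v : ℝ × ℝ) :
    D v = ((D (1, 0)).1 * v.1 + (D (0, 1)).1 * v.2, (D (1, 0)).2 * v.1 + (D (0, 1)).2 * v.2) := by
  have : v = v.1 • ((1, 0) : ℝ × ℝ) + v.2 • ((0, 1) : ℝ × ℝ) := by simp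
  conv_lhs => rw [this, map_add, map_smul, map_smul]
  ext <;> simp [mul_comm]

theorem IsChart.d1 (h : IsChart Ψ) (e : ℝ × ℝ) :
    fderiv ℝ (fun w => (Ψ.symm w).1) (0, 0) e = (fderiv ℝ Ψ.symm (0, 0) e).1 := by
  rw [h.aχ.differentiableAt.hasFDerivAt.fst.fderiv]; rfl

theorem IsChart.d2 (h : IsChart Ψ) (e : ℝ × ℝ) :
    fderiv ℝ (fun w => (Ψ.symm w).2) (0, 0) e = (fderiv ℝ Ψ.symm (0, 0) e).2 := by
  rw [h.aχ.differentiableAt.hasFDerivAt.snd.fderiv]; rfl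

theorem lim_cont {g : ℝ × ℝ → ℝ} (hg : AnalyticAt ℝ g (0, 0)) {p q : ℕ} (hp : 0 < p) (hq : 0 < q)
    (u v : ℝ) : Tendsto (fun t : ℝ => g (t ^ p * u, t ^ q * v)) (𝓝[>] 0) (𝓝 (g (0, 0))) :=
  (hg.continuousAt.tendsto.comp (tendsto_scale hp hq u v)).mono_left nhdsWithin_le_nhds

/-- the data of a single edge with a reflection symmetry -/
structure EdgeData (W : ℝ × ℝ → ℝ × ℝ) (p q r i0 j0 : ℕ) (Pl Ql : ℝ → ℝ → ℝ) : Prop where
  hp : 0 < p
  hq : 0 < q
  hc : Nat.Coprime p q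
  hi : p * i0 = p + q + r
  hj : q * j0 = p + q + r
  cP : ∀ u, Continuous (fun v => Pl u v)
  cQ : ∀ v, Continuous (fun u => Ql u v)
  h1 : ∀ u v, Tendsto (fun t : ℝ => (W (t ^ p * u, t ^ q * v)).1 / t ^ (p + r)) (𝓝[>] 0)
      (𝓝 (Pl u v))
  h2 : ∀ u v, Tendsto (fun t : ℝ => (W (t ^ p * u, t ^ q * v)).2 / t ^ (q + r)) (𝓝[>] 0)
      (𝓝 (Ql u v))
  hP : Pl 0 1 ≠ 0
  hQ : Ql 1 0 ≠ 0
  pv : HasPV (fun φ => Pl (cos φ) (sin φ) * cos φ + Ql (cos φ) (sin φ) * sin φ)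
    (fun φ => p * Ql (cos φ) (sin φ) * cos φ - q * Pl (cos φ) (sin φ) * sin φ) 0

theorem IsChart.edge (h : IsChart Ψ) : ∃ p q r i0 j0 Pl Ql, EdgeData (push Ψ) p q r i0 j0 Pl Ql := by
  have a1 : AnalyticAt ℝ (fun w => (Ψ.symm w).1) (0, 0) := analyticAt_fst.comp h.aχ
  have a2 : AnalyticAt ℝ (fun w => (Ψ.symm w).2) (0, 0) := analyticAt_snd.comp h.aχ
  have z1 : (Ψ.symm (0, 0)).1 = 0 := by rw [h.zero']
  have z2 : (Ψ.symm (0, 0)).2 = 0 := by rw [h.zero']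
  have b11 : AnalyticAt ℝ (fun w => (fderiv ℝ Ψ (Ψ.symm w) (1, 0)).1) (0, 0) :=
    analyticAt_fst.comp (h.aD _)
  have b21 : AnalyticAt ℝ (fun w => (fderiv ℝ Ψ (Ψ.symm w) (1, 0)).2) (0, 0) :=
    analyticAt_snd.comp (h.aD _)
  have b12 : AnalyticAt ℝ (fun w => (fderiv ℝ Ψ (Ψ.symm w) (0, 1)).1) (0, 0) :=
    analyticAt_fst.comp (h.aD _)
  have b22 : AnalyticAt ℝ (fun w => (fderiv ℝ Ψ (Ψ.symm w) (0, 1)).2) (0, 0) :=
    analyticAt_snd.comp (h.aD _)
  have i1 := h.inv (1, 0)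
  have i2 := h.inv (0, 1)
  rw [clm_apply', Prod.mk.injEq] at i1 i2
  obtain ⟨e1, e2⟩ := i1
  obtain ⟨e3, e4⟩ := i2
  have l11 := fun p q hp hq u v => lim_cont b11 (p := p) (q := q) hp hq u v
  have l21 := fun p q hp hq u v => lim_cont b21 (p := p) (q := q) hp hq u v
  have l12 := fun p q hp hq u v => lim_cont b12 (p := p) (q := q) hp hq u v
  have l22 := fun p q hp hq u v => lim_cont b22 (p := p) (q := q) hp hq u v
  have m1 := fun p q j k hp hq hk u v l => lim_lin a1 z1 (p := p) (q := q) (j := j) (k := k)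
    hp hq hk u v l
  have m2 := fun p q j k hp hq hk u v l => lim_lin a2 z2 (p := p) (q := q) (j := j) (k := k)
    hp hq hk u v l
  simp only [h.d1, h.d2, h.zero'] at m1 m2 l11 l21 l12 l22
  have n11z := fun hz p q hp hq u v => lim_lin b11 hz (p := p) (q := q) (j := 2) (k := 1)
    hp hq (by norm_num) u v 0
  have n21z := fun hz p q hp hq u v => lim_lin b21 hz (p := p) (q := q) (j := 2) (k := 1)
    hp hq (by norm_num) u v 0
  simp only [h.zero'] at n11z n21z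
  set a := (fderiv ℝ Ψ.symm (0, 0) (1, 0)).1
  set b := (fderiv ℝ Ψ.symm (0, 0) (0, 1)).1
  set c := (fderiv ℝ Ψ.symm (0, 0) (1, 0)).2
  set d := (fderiv ℝ Ψ.symm (0, 0) (0, 1)).2
  set n11 := (fderiv ℝ Ψ (0, 0) (1, 0)).1
  set n21 := (fderiv ℝ Ψ (0, 0) (1, 0)).2
  set n12 := (fderiv ℝ Ψ (0, 0) (0, 1)).1
  set n22 := (fderiv ℝ Ψ (0, 0) (0, 1)).2
  by_cases hc : c = 0
  · rw [hc, mul_zero, add_zero] at e1 e2
    have ha : a ≠ 0 := right_ne_zero_of_mul_eq_one e1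
    have h11 : n11 ≠ 0 := left_ne_zero_of_mul_eq_one e1
    have h21 : n21 = 0 := (mul_eq_zero.1 e2).resolve_right ha
    rw [h21, zero_mul, zero_add] at e4
    have hd : d ≠ 0 := right_ne_zero_of_mul_eq_one e4
    have h22 : n22 ≠ 0 := left_ne_zero_of_mul_eq_one e4
    have X := fun u v => m1 2 3 2 2 le_rfl (by norm_num) (by norm_num) u v (a * u)
      (lim_poly (b * v) 0 fun t ht => by field_simp; ring)
    have Y := fun u v => m2 2 3 2 3 le_rfl (by norm_num) (by norm_num) u v (d * v)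
      (lim_poly 0 0 fun t ht => by rw [hc]; field_simp; ring)
    refine ⟨2, 3, 7, 6, 4, fun u v => n11 * (-2 * (d * v) ^ 3 + 2 * (a * u) ^ 3 * (d * v)),
      fun u v => n22 * (3 * (a * u) ^ 5 - 3 * (a * u) ^ 2 * (d * v) ^ 2), by norm_num,
      by norm_num, by norm_num, by norm_num, by norm_num, fun u => by fun_prop,
      fun u => by fun_prop, fun u v => ?_, fun u v => ?_, by simp [h11, hd], by simp [h22, ha], ?_⟩
    · simp only [push_eq]
      exact lim_nine (X u v) (Y u v) (l11 2 3 (by norm_num) (by norm_num) u v)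
        (l12 2 3 (by norm_num) (by norm_num) u v)
    · simp only [push_eq]
      refine lim_ten (X u v) (Y u v) (n21z h21 2 3 le_rfl (by norm_num) u v
        (lim_poly (fderiv ℝ (fun w => (fderiv ℝ Ψ (Ψ.symm w) (1, 0)).2) (0, 0) (1, 0) * u)
          (fderiv ℝ (fun w => (fderiv ℝ Ψ (Ψ.symm w) (1, 0)).2) (0, 0) (0, 1) * v)
          fun t ht => by field_simp; ring)) (l22 2 3 (by norm_num) (by norm_num) u v)
    · apply hasPV_zero 0 (by fun_prop) (fun φ _ => by fun_prop) (by simp [h22, ha])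
      · intro φ; simp only [cos_add_two_pi, sin_add_two_pi]
      · intro φ; simp only [cos_add_two_pi, sin_add_two_pi]
      · intro φ; simp only [mul_zero, zero_sub, cos_neg, sin_neg]; ring
      · intro φ; simp only [mul_zero, zero_sub, cos_neg, sin_neg]; ring
  by_cases hd : d = 0
  · rw [hd, mul_zero, add_zero] at e3 e4
    have hb : b ≠ 0 := right_ne_zero_of_mul_eq_one e4
    have h21 : n21 ≠ 0 := left_ne_zero_of_mul_eq_one e4
    have h11 : n11 = 0 := (mul_eq_zero.1 e3).resolve_right hb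
    rw [h11, zero_mul, zero_add] at e1
    have h12 : n12 ≠ 0 := left_ne_zero_of_mul_eq_one e1
    have X := fun u v => m1 3 2 2 2 (by norm_num) le_rfl (by norm_num) u v (b * v)
      (lim_poly (a * u) 0 fun t ht => by field_simp; ring)
    have Y := fun u v => m2 3 2 2 3 (by norm_num) le_rfl (by norm_num) u v (c * u)
      (lim_poly 0 0 fun t ht => by rw [hd]; field_simp; ring)
    refine ⟨3, 2, 7, 4, 6, fun u v => n12 * (3 * (b * v) ^ 5 - 3 * (b * v) ^ 2 * (c * u) ^ 2),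
      fun u v => n21 * (-2 * (c * u) ^ 3 + 2 * (b * v) ^ 3 * (c * u)), by norm_num,
      by norm_num, by norm_num, by norm_num, by norm_num, fun u => by fun_prop,
      fun u => by fun_prop, fun u v => ?_, fun u v => ?_, by simp [h12, hb], by simp [h21, hc], ?_⟩
    · simp only [push_eq]
      refine lim_ten (X u v) (Y u v) (n11z h11 3 2 (by norm_num) le_rfl u v
        (lim_poly (fderiv ℝ (fun w => (fderiv ℝ Ψ (Ψ.symm w) (1, 0)).1) (0, 0) (0, 1) * v)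
          (fderiv ℝ (fun w => (fderiv ℝ Ψ (Ψ.symm w) (1, 0)).1) (0, 0) (1, 0) * u)
          fun t ht => by field_simp; ring)) (l12 3 2 (by norm_num) (by norm_num) u v)
    · simp only [push_eq]
      exact lim_nine (X u v) (Y u v) (l21 3 2 (by norm_num) (by norm_num) u v)
        (l22 3 2 (by norm_num) (by norm_num) u v)
    · apply hasPV_zero (π / 2) (by fun_prop) (fun φ _ => by fun_prop) (by simp [h21, hc])
      · intro φ; simp only [cos_add_two_pi, sin_add_two_pi]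
      · intro φ; simp only [cos_add_two_pi, sin_add_two_pi]
      · intro φ
        simp only [show 2 * (π / 2) = π by ring, cos_pi_sub, sin_pi_sub]; ring
      · intro φ
        simp only [show 2 * (π / 2) = π by ring, cos_pi_sub, sin_pi_sub]; ring
  · have hΔ : (n11 * n22 - n12 * n21) * (a * d - b * c) = 1 := by
      linear_combination (n21 * b + n22 * d) * e1 + e4 - (n11 * b + n12 * d) * e2
    have f1 : n11 * (a * d - b * c) = d := by linear_combination d * e1 - c * e3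
    have f2 : n21 * (a * d - b * c) = -c := by linear_combination d * e2 - c * e4
    have h11 : n11 ≠ 0 := by intro z; rw [z, zero_mul] at f1; exact hd f1.symm
    have h21 : n21 ≠ 0 := by intro z; rw [z, zero_mul] at f2; exact hc (neg_eq_zero.1 f2.symm)
    have hD : a * d - b * c ≠ 0 := right_ne_zero_of_mul_eq_one hΔ
    have X := fun u v => m1 1 1 1 1 le_rfl le_rfl (by norm_num) u v (a * u + b * v)
      (lim_poly 0 0 fun t ht => by field_simp; ring)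
    have Y := fun u v => m2 1 1 1 1 le_rfl le_rfl (by norm_num) u v (c * u + d * v)
      (lim_poly 0 0 fun t ht => by field_simp; ring)
    refine ⟨1, 1, 2, 4, 4, fun u v => n11 * (-2 * (c * u + d * v) ^ 3),
      fun u v => n21 * (-2 * (c * u + d * v) ^ 3), by norm_num,
      by norm_num, by norm_num, by norm_num, by norm_num, fun u => by fun_prop,
      fun u => by fun_prop, fun u v => ?_, fun u v => ?_, by simp [h11, hd], by simp [h21, hc], ?_⟩
    · simp only [push_eq]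
      exact lim_homog (X u v) (Y u v) (l11 1 1 (by norm_num) (by norm_num) u v)
        (l12 1 1 (by norm_num) (by norm_num) u v)
    · simp only [push_eq]
      exact lim_homog (X u v) (Y u v) (l21 1 1 (by norm_num) (by norm_num) u v)
        (l22 1 1 (by norm_num) (by norm_num) u v)
    · have hw : (⟨c, d⟩ : ℂ) ≠ 0 := fun z => hc (congrArg Complex.re z)
      have hn : ‖(⟨c, d⟩ : ℂ)‖ ≠ 0 := norm_ne_zero_iff.2 hw
      have k1 : c = ‖(⟨c, d⟩ : ℂ)‖ * cos (Complex.arg ⟨c, d⟩) := by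
        rw [Complex.cos_arg hw]; field_simp
      have k2 : d = ‖(⟨c, d⟩ : ℂ)‖ * sin (Complex.arg ⟨c, d⟩) := by
        rw [Complex.sin_arg]; field_simp
      set φ0 := Complex.arg ⟨c, d⟩
      set ρ := ‖(⟨c, d⟩ : ℂ)‖
      have s1 : ∀ φ, c * cos φ + d * sin φ = ρ * cos (φ - φ0) := by
        intro φ; rw [cos_sub]; linear_combination cos φ * k1 + sin φ * k2
      have s2 : ∀ φ, d * cos φ - c * sin φ = -(ρ * sin (φ - φ0)) := by
        intro φ; rw [sin_sub]; linear_combination cos φ * k2 - sin φ * k1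
      have g1 : n11 = d / (a * d - b * c) := eq_div_of_mul_eq hD f1
      have g2 : n21 = -c / (a * d - b * c) := eq_div_of_mul_eq hD f2
      have t1 : ∀ φ, c * cos (2 * φ0 - φ) + d * sin (2 * φ0 - φ) = c * cos φ + d * sin φ := by
        intro φ; rw [s1, s1, ← cos_neg]; congr 2; ring
      have t2 : ∀ φ, d * cos (2 * φ0 - φ) - c * sin (2 * φ0 - φ) = -(d * cos φ - c * sin φ) := by
        intro φ; rw [s2, s2, show 2 * φ0 - φ - φ0 = -(φ - φ0) by ring, sin_neg]; ring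
      apply hasPV_zero φ0 (by fun_prop) (fun φ _ => by fun_prop) (by simp [h21, hc])
      · intro φ; simp only [cos_add_two_pi, sin_add_two_pi]
      · intro φ; simp only [cos_add_two_pi, sin_add_two_pi]
      · intro φ
        simp only [t1, g1, g2]
        linear_combination (-2 * (c * cos φ + d * sin φ) ^ 3 / (a * d - b * c)) * t2 φ
      · intro φ
        simp only [t1, g1, g2]
        push_cast
        linear_combination (2 * (c * cos φ + d * sin φ) ^ 3 / (a * d - b * c)) * t1 φ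

theorem IsChart.ret (h : IsChart Ψ) : ∃ ε > 0, ∃ R : ℝ → ℝ, ∃ η : ℝ,
    IsReturnMap (push Ψ) Ψ.target ε R ∧
    (fun x => R x - η * x) =o[𝓝[>] 0] (fun x => x) ∧ 0 < η ∧ η < 1 := by
  have c0 : AnalyticAt ℝ (fun s : ℝ => ((s, 0) : ℝ × ℝ)) 0 := by fun_prop
  have aσ : AnalyticAt ℝ (fun s : ℝ => Ψ.symm (s, 0)) 0 :=
    AnalyticAt.comp (g := Ψ.symm) (f := fun s : ℝ => ((s, 0) : ℝ × ℝ)) h.aχ c0
  have dσ : HasDerivAt (fun s : ℝ => Ψ.symm (s, 0)) (fderiv ℝ Ψ.symm (0, 0) (1, 0)) 0 :=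
    HasFDerivAt.comp_hasDerivAt (f := fun s : ℝ => ((s, 0) : ℝ × ℝ)) (0 : ℝ)
      h.aχ.differentiableAt.hasFDerivAt ((hasDerivAt_id (0 : ℝ)).prodMk (hasDerivAt_const _ _))
  have hne : deriv (fun s : ℝ => (Ψ.symm (s, 0)).1) 0 ≠ 0 ∨
      deriv (fun s : ℝ => (Ψ.symm (s, 0)).2) 0 ≠ 0 := by
    have d1 : HasDerivAt (fun s : ℝ => (Ψ.symm (s, 0)).1) (fderiv ℝ Ψ.symm (0, 0) (1, 0)).1 0 :=
      (ContinuousLinearMap.fst ℝ ℝ ℝ).hasFDerivAt.comp_hasDerivAt 0 dσ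
    have d2 : HasDerivAt (fun s : ℝ => (Ψ.symm (s, 0)).2) (fderiv ℝ Ψ.symm (0, 0) (1, 0)).2 0 :=
      (ContinuousLinearMap.snd ℝ ℝ ℝ).hasFDerivAt.comp_hasDerivAt 0 dσ
    rw [d1.deriv, d2.deriv]
    by_contra hc
    rw [not_or, not_not, not_not] at hc
    have h1 := h.inv (1, 0)
    rw [show fderiv ℝ Ψ.symm (0, 0) (1, 0) = 0 from Prod.ext hc.1 hc.2, map_zero] at h1
    exact zero_ne_one (congrArg Prod.fst h1)
  obtain ⟨η, η0, η1, ε1, hε1, R, hR, hret⟩ := curve_return (analyticAt_fst.comp aσ)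
    (analyticAt_snd.comp aσ) (by simp [h.zero']) (by simp [h.zero']) hne
  have nb : ∀ᶠ z in 𝓝 ((0, 0) : ℝ × ℝ), z ∈ Ψ.source ∧ ‖Ψ z‖ < ε1 := by
    refine Eventually.and (Ψ.open_source.mem_nhds h.mem) ?_
    exact (h.an _ h.mem).continuousAt.norm.eventually_lt continuousAt_const
      (by rw [h.zero]; simpa using hε1)
  obtain ⟨δ, hδ, hball⟩ := Metric.eventually_nhds_iff.1 nb
  obtain ⟨p, q, r, i0, j0, Pl, Ql, hE⟩ := h.edge
  have tr : ∀ᶠ x in 𝓝[>] (0 : ℝ), (push Ψ (x, 0)).2 ≠ 0 := by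
    apply eventually_ne_of_scale (f := fun x => (push Ψ (x, 0)).2) hE.hp hE.hQ (k := q + r)
    simpa using hE.h2 1 0
  have tg : ∀ᶠ x in 𝓝[>] (0 : ℝ), ((x, 0) : ℝ × ℝ) ∈ Ψ.target :=
    nhdsWithin_le_nhds (c0.continuousAt.eventually (Ψ.open_target.mem_nhds h.mem'))
  obtain ⟨ε, hε, hall⟩ := (mem_nhdsGT_iff_exists_Ioo_subset).1 ((hret δ hδ).and (tr.and tg))
  refine ⟨ε, hε, R, η, ?_, ?_, η0, η1⟩
  · intro x hx
    obtain ⟨⟨r0, r1, T, hT, γ, g0, gT, gd, gi⟩, t1, t2⟩ := hall hx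
    have t3 := (hall (show R x ∈ Set.Ioo 0 ε from ⟨r0, r1.trans hx.2⟩)).2.2
    have hb : ∀ t ∈ Set.Icc 0 T, γ t ∈ Ψ.source ∧ ‖Ψ (γ t)‖ < ε1 := by
      intro t ht
      apply hball
      rw [show ((0, 0) : ℝ × ℝ) = 0 from rfl, dist_zero_right]
      exact (gd t ht).1
    refine ⟨t1, r0, T, hT, fun t => Ψ (γ t), ?_, ?_, ?_, ?_⟩
    · simp only [g0, Function.comp, Prod.mk.eta]; exact Ψ.right_inv t2
    · simp only [gT, Function.comp, Prod.mk.eta]; exact Ψ.right_inv t3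
    · intro t ht
      refine ⟨Ψ.map_source (hb t ht).1, ?_⟩
      simp only [push, Ψ.left_inv (hb t ht).1]
      exact (h.an _ (hb t ht).1).differentiableAt.hasFDerivAt.comp_hasDerivAt t (gd t ht).2
    · rintro t ht ⟨k1, k2⟩
      have k3 := hb t (Set.Ioo_subset_Icc_self ht)
      apply gi t ht (Ψ (γ t)).1 ⟨k2, lt_of_le_of_lt ?_ k3.2⟩
      · simp only [Function.comp, Prod.mk.eta]
        have : ((Ψ (γ t)).1, (0 : ℝ)) = Ψ (γ t) := Prod.ext rfl k1.symm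
        rw [this, Ψ.left_inv k3.1]
      · exact (le_abs_self _).trans (norm_fst_le (Ψ (γ t)))
  · rw [isLittleO_iff_tendsto' (by
      filter_upwards [self_mem_nhdsWithin] with x hx h0 using absurd h0 (ne_of_gt hx))]
    have := hR.sub_const η
    rw [sub_self] at this
    refine this.congr' ?_
    filter_upwards [self_mem_nhdsWithin] with x hx
    have : x ≠ 0 := ne_of_gt hx
    field_simp

theorem cusp_zero_iff (z : ℝ × ℝ) : cuspField z = 0 ↔ z = 0 := by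
  constructor
  · obtain ⟨x, y⟩ := z
    intro h
    simp only [cuspField, Prod.mk_eq_zero] at h ⊢
    have e : 6 * (y ^ 2 - x ^ 3) ^ 2 + 7 * (x ^ 2 * y) ^ 2 - (y ^ 2 - x ^ 3) * (x ^ 2 * y) = 0 := by
      linear_combination 2 * x * h.2 - 3 * y * h.1
    have u : (y ^ 2 - x ^ 3) ^ 2 = 0 := by
      nlinarith [sq_nonneg (y ^ 2 - x ^ 3 - x ^ 2 * y), sq_nonneg (y ^ 2 - x ^ 3),
        sq_nonneg (x ^ 2 * y)]
    have v : (x ^ 2 * y) ^ 2 = 0 := by
      nlinarith [sq_nonneg (y ^ 2 - x ^ 3 - x ^ 2 * y), sq_nonneg (y ^ 2 - x ^ 3),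
        sq_nonneg (x ^ 2 * y)]
    have u' := pow_eq_zero_iff (two_ne_zero) |>.1 u
    rcases mul_eq_zero.1 (pow_eq_zero_iff (two_ne_zero) |>.1 v) with w | w
    · have hx : x = 0 := pow_eq_zero_iff (two_ne_zero) |>.1 w
      rw [hx] at u'
      exact ⟨hx, by simpa using u'⟩
    · rw [w] at u'
      exact ⟨by simpa using u', w⟩
  · rintro rfl
    simp [cuspField]

theorem IsChart.newton (h : IsChart Ψ) (a b : ℕ × ℕ → ℝ) (hab : IsExpansion (push Ψ) a b) :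
    ∃ p q : ℕ, (∀ p' q', IsEdgeWeight a b p' q' ↔ p' = p ∧ q' = q) ∧
      HasPV (angF a b p q) (angG a b p q) 0 := by
  obtain ⟨p, q, r, i0, j0, Pl, Ql, hE⟩ := h.edge
  obtain ⟨h1, h2, h3⟩ := newton_single hab hE.hp hE.hq hE.hc hE.hi hE.hj hE.cP hE.cQ hE.h1 hE.h2
    hE.hP hE.hQ
  refine ⟨p, q, h1, ?_⟩
  unfold angF angG
  rw [h2, h3]
  exact hE.pv

end Pool.Agent.Lib.MP_296844_an
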