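import Pool.Agent.Lib.MP_296844_an.Defs

-- part Pool.Agent.Lib.MP_296844_an.Orbit
section

set_option autoImplicit false

/-! Orbits of the example in weighted polar coordinates. -/

namespace Pool.Agent.Lib.MP_296844_an

open Filter Topology Real

noncomputable def uu (φ : ℝ) : ℝ := sin φ ^ 2 - cos φ ^ 3
noncomputable def vv (φ : ℝ) : ℝ := cos φ ^ 2 * sin φ
noncomputable def uu' (φ : ℝ) : ℝ := 2 * sin φ * cos φ + 3 * cos φ ^ 2 * sin φ
noncomputable def vv' (φ : ℝ) : ℝ := cos φ ^ 3 - 2 * cos φ * sin φ ^ 2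
noncomputable def zz (L φ : ℝ) : ℂ := (uu φ : ℝ) + (exp L * vv φ : ℝ) * Complex.I
noncomputable def ww (L φ : ℝ) : ℂ := -zz L φ * Complex.exp (φ * Complex.I)
noncomputable def AA (L φ : ℝ) : ℝ := π - φ + Complex.arg (ww L φ)
noncomputable def hh (L φ : ℝ) : ℝ := 6 * L + log ‖ww L φ‖ - AA L φ
noncomputable def nn (L φ : ℝ) : ℝ := uu φ ^ 2 + (exp L * vv φ) ^ 2
noncomputable def NL (L φ : ℝ) : ℝ :=
  6 * uu φ ^ 2 + 7 * (exp L * vv φ) ^ 2 - uu φ * (exp L * vv φ)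
noncomputable def NA (L φ : ℝ) : ℝ :=
  uu φ * uu' φ + exp L ^ 2 * vv φ * vv' φ - exp L * (uu φ * vv' φ - uu' φ * vv φ)
noncomputable def pm (L φ : ℝ) : ℝ × ℝ := (exp L ^ 2 * cos φ, exp L ^ 3 * sin φ)
noncomputable def ff (z : ℝ × ℝ) : ℂ :=
  (z.2 ^ 2 - z.1 ^ 3 : ℝ) + (z.1 ^ 2 * z.2 : ℝ) * Complex.I

theorem ww_re (L φ : ℝ) :
    (ww L φ).re = (cos φ ^ 3 - sin φ ^ 2) * cos φ + exp L * cos φ ^ 2 * sin φ ^ 2 := by
  simp only [ww, zz, uu, vv, Complex.mul_re, Complex.neg_re, Complex.neg_im, Complex.add_re,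
    Complex.add_im, Complex.ofReal_re, Complex.ofReal_im, Complex.mul_im, Complex.I_re,
    Complex.I_im, Complex.exp_ofReal_mul_I_re, Complex.exp_ofReal_mul_I_im]
  ring

theorem ww_im (L φ : ℝ) :
    (ww L φ).im = -(sin φ * (sin φ ^ 2 - cos φ ^ 3 + exp L * cos φ ^ 3)) := by
  simp only [ww, zz, uu, vv, Complex.mul_re, Complex.neg_re, Complex.neg_im, Complex.add_re,
    Complex.add_im, Complex.ofReal_re, Complex.ofReal_im, Complex.mul_im, Complex.I_re,
    Complex.I_im, Complex.exp_ofReal_mul_I_re, Complex.exp_ofReal_mul_I_im]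
  ring

theorem ww_slit (L φ : ℝ) : ww L φ ∈ Complex.slitPlane := by
  rw [Complex.mem_slitPlane_iff, ww_re, ww_im]
  by_contra h
  rw [not_or, not_not, neg_eq_zero, mul_eq_zero] at h
  have hρ := exp_pos L
  have hsc := sin_sq_add_cos_sq φ
  apply h.1
  rcases h.2 with h2 | h2
  · rw [h2] at hsc ⊢
    have : cos φ ^ 2 = 1 := by linarith
    nlinarith
  · have hc : cos φ ≠ 0 := by
      intro h0
      rw [h0] at h2 hsc
      nlinarith
    have e : cos φ ^ 3 - sin φ ^ 2 = exp L * cos φ ^ 3 := by linarith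
    rw [e]
    have : 0 < cos φ ^ 4 := by positivity
    have : 0 ≤ exp L * cos φ ^ 2 * sin φ ^ 2 := by positivity
    nlinarith

theorem zz_ne (L φ : ℝ) : zz L φ ≠ 0 := by
  intro h
  have := Complex.slitPlane_ne_zero (ww_slit L φ)
  simp [ww, h] at this

theorem normSq_zz (L φ : ℝ) : Complex.normSq (zz L φ) = nn L φ := by
  simp only [zz, nn, Complex.normSq_add_mul_I]

theorem nn_pos (L φ : ℝ) : 0 < nn L φ := by
  rw [← normSq_zz]; exact Complex.normSq_pos.2 (zz_ne L φ)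

theorem NL_ge (L φ : ℝ) : 4 * nn L φ ≤ NL L φ := by
  unfold nn NL
  nlinarith [sq_nonneg (uu φ - exp L * vv φ), sq_nonneg (uu φ), sq_nonneg (exp L * vv φ)]

theorem NL_pos (L φ : ℝ) : 0 < NL L φ := by
  have := NL_ge L φ
  have := nn_pos L φ
  linarith

theorem hasDerivAt_hh {L φ : ℝ → ℝ} {L' φ' t : ℝ} (hL : HasDerivAt L L' t)
    (hφ : HasDerivAt φ φ' t) :
    HasDerivAt (fun s => hh (L s) (φ s))
      ((NL (L t) (φ t) * L' + NA (L t) (φ t) * φ') / nn (L t) (φ t)) t := by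
  have hu : HasDerivAt (fun s => uu (φ s)) (uu' (φ t) * φ') t := by
    refine ((hφ.sin.pow 2).sub (hφ.cos.pow 3)).congr_deriv ?_
    simp only [uu']; push_cast; ring
  have hv : HasDerivAt (fun s => exp (L s) * vv (φ s))
      (exp (L t) * L' * vv (φ t) + exp (L t) * (vv' (φ t) * φ')) t := by
    have h1 : HasDerivAt (fun s => vv (φ s)) (vv' (φ t) * φ') t := by
      refine ((hφ.cos.pow 2).mul hφ.sin).congr_deriv ?_
      simp only [vv', Pi.pow_apply]; push_cast; ring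
    exact hL.exp.mul h1
  set a := uu' (φ t) * φ' with ha
  set b := exp (L t) * L' * vv (φ t) + exp (L t) * (vv' (φ t) * φ') with hb
  have hz : HasDerivAt (fun s => zz (L s) (φ s)) ((a : ℂ) + (b : ℂ) * Complex.I) t :=
    hu.ofReal_comp.add (hv.ofReal_comp.mul_const Complex.I)
  have he : HasDerivAt (fun s => Complex.exp (φ s * Complex.I))
      (Complex.exp (φ t * Complex.I) * (φ' * Complex.I)) t :=
    (hφ.ofReal_comp.mul_const Complex.I).cexp
  have hw : HasDerivAt (fun s => ww (L s) (φ s)) _ t := hz.neg.mul he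
  have hlog := hw.clog_real (ww_slit _ _)
  have e : (-((a : ℂ) + (b : ℂ) * Complex.I) * Complex.exp (φ t * Complex.I) +
      -zz (L t) (φ t) * (Complex.exp (φ t * Complex.I) * (φ' * Complex.I))) / ww (L t) (φ t) =
      ((a : ℂ) + (b : ℂ) * Complex.I) / zz (L t) (φ t) + φ' * Complex.I := by
    have h1 := zz_ne (L t) (φ t)
    have h2 := Complex.exp_ne_zero (φ t * Complex.I)
    unfold ww
    field_simp
    ring
  simp only [Pi.neg_apply] at hlog
  rw [e] at hlog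
  have hre := (Complex.reCLM.hasFDerivAt.comp_hasDerivAt t hlog)
  have him := (Complex.imCLM.hasFDerivAt.comp_hasDerivAt t hlog)
  have tot := ((hL.const_mul 6).add hre).sub (((hφ.const_sub π)).add him)
  refine (tot.congr_of_eventuallyEq (Eventually.of_forall fun s => ?_)).congr_deriv ?_
  · simp [hh, AA, Complex.log_re, Complex.log_im]
  · have hn := (nn_pos (L t) (φ t)).ne'
    simp only [Complex.reCLM_apply, Complex.imCLM_apply, Complex.add_re, Complex.add_im,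
      Complex.div_re, Complex.div_im, normSq_zz, Complex.mul_re, Complex.mul_im,
      Complex.ofReal_re, Complex.ofReal_im, Complex.I_re, Complex.I_im]
    have z1 : (zz (L t) (φ t)).re = uu (φ t) := by simp [zz, -Complex.ofReal_mul]
    have z2 : (zz (L t) (φ t)).im = exp (L t) * vv (φ t) := by simp [zz, -Complex.ofReal_mul]
    rw [z1, z2]
    field_simp
    simp only [NL, NA, nn, ha, hb]
    ring

theorem hh_mono (φ : ℝ) {L1 L2 : ℝ} (h : L1 ≤ L2) : 4 * (L2 - L1) ≤ hh L2 φ - hh L1 φ := by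
  have hd : ∀ L, HasDerivAt (fun s => hh s φ) (NL L φ / nn L φ) L := by
    intro L
    have := hasDerivAt_hh (hasDerivAt_id L) (hasDerivAt_const L φ)
    simpa using this
  apply mul_sub_le_image_sub_of_le_deriv (f := fun s => hh s φ) (fun L => (hd L).differentiableAt)
    _ h
  intro L
  rw [(hd L).deriv, le_div_iff₀ (nn_pos L φ)]
  exact NL_ge L φ

theorem hh_inj (φ : ℝ) : Function.Injective (fun L => hh L φ) := by
  apply StrictMono.injective
  intro L1 L2 h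
  have := hh_mono φ h.le
  show hh L1 φ < hh L2 φ
  linarith

theorem hh_surj (φ : ℝ) : Function.Surjective (fun L => hh L φ) := by
  have hc : Continuous (fun L => hh L φ) := by
    rw [continuous_iff_continuousAt]
    intro L
    exact (hasDerivAt_hh (hasDerivAt_id L) (hasDerivAt_const L φ)).continuousAt
  intro c
  have h1 := hh_mono φ (show -|c - hh 0 φ| ≤ 0 by simp)
  have h2 := hh_mono φ (abs_nonneg (c - hh 0 φ))
  have h3 := le_abs_self (c - hh 0 φ)
  have h4 := neg_abs_le (c - hh 0 φ)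
  have h5 := abs_nonneg (c - hh 0 φ)
  exact mem_range_of_exists_le_of_exists_ge hc ⟨-|c - hh 0 φ|, by linarith⟩
    ⟨|c - hh 0 φ|, by linarith⟩

/-- the level curves of the first integral -/
noncomputable def Lam (c φ : ℝ) : ℝ := Function.invFun (fun L => hh L φ) c

theorem hh_Lam (c φ : ℝ) : hh (Lam c φ) φ = c := Function.invFun_eq (hh_surj φ c)

theorem Lam_hh (L φ : ℝ) : Lam (hh L φ) φ = L := Function.leftInverse_invFun (hh_inj φ) L

theorem contDiff_hh : ContDiff ℝ 1 (fun p : ℝ × ℝ => hh p.1 p.2) := by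
  have hw : ContDiff ℝ 1 (fun p : ℝ × ℝ => ww p.1 p.2) := by
    have o := Complex.ofRealCLM.contDiff (n := 1)
    have o1 : ContDiff ℝ 1 (fun p : ℝ × ℝ => uu p.2) := by unfold uu; fun_prop
    have o2 : ContDiff ℝ 1 (fun p : ℝ × ℝ => exp p.1 * vv p.2) := by unfold vv; fun_prop
    apply ContDiff.mul
    · exact ((o.comp o1).add ((o.comp o2).mul contDiff_const)).neg
    · exact ((o.comp contDiff_snd).mul contDiff_const).cexp
  have hl : ContDiff ℝ 1 (fun p : ℝ × ℝ => Complex.log (ww p.1 p.2)) := by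
    rw [contDiff_iff_contDiffAt]
    intro p
    exact ((Complex.contDiffAt_log (ww_slit p.1 p.2)).restrict_scalars ℝ).comp p hw.contDiffAt
  have h1 := Complex.reCLM.contDiff.comp hl
  have h2 := Complex.imCLM.contDiff.comp hl
  have : (fun p : ℝ × ℝ => hh p.1 p.2) = fun p => 6 * p.1 +
      (Complex.reCLM ∘ fun p : ℝ × ℝ => Complex.log (ww p.1 p.2)) p - (π - p.2 +
      (Complex.imCLM ∘ fun p : ℝ × ℝ => Complex.log (ww p.1 p.2)) p) := by
    funext p
    simp [hh, AA, Complex.log_re, Complex.log_im]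
  rw [this]
  fun_prop

theorem differentiableAt_Lam (c φ : ℝ) : DifferentiableAt ℝ (Lam c) φ := by
  set p : ℝ × ℝ := (Lam c φ, φ) with hp
  let Φ : ℝ × ℝ → ℝ × ℝ := fun p => (hh p.1 p.2, p.2)
  have hΦ : ContDiff ℝ 1 Φ := contDiff_hh.prodMk contDiff_snd
  have hs : HasStrictFDerivAt Φ (fderiv ℝ Φ p) p :=
    hΦ.contDiffAt.hasStrictFDerivAt one_ne_zero
  have hinj : Function.Injective (fderiv ℝ Φ p : (ℝ × ℝ) →ₗ[ℝ] (ℝ × ℝ)) := by
    rw [injective_iff_map_eq_zero]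
    intro v hv
    have hv' : fderiv ℝ Φ p v = 0 := hv
    have c1 : HasDerivAt (fun t : ℝ => p.1 + t * v.1) v.1 0 := by
      simpa using ((hasDerivAt_id (0 : ℝ)).mul_const v.1).const_add p.1
    have c2 : HasDerivAt (fun t : ℝ => p.2 + t * v.2) v.2 0 := by
      simpa using ((hasDerivAt_id (0 : ℝ)).mul_const v.2).const_add p.2
    have c3 := (hasDerivAt_hh c1 c2).prodMk c2
    have c4 : HasFDerivAt Φ (fderiv ℝ Φ p) (p.1 + 0 * v.1, p.2 + 0 * v.2) := by
      simpa using hs.hasFDerivAt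
    have c5 := c4.comp_hasDerivAt (0 : ℝ) (c1.prodMk c2)
    have c6 := c3.unique c5
    rw [show (v.1, v.2) = v from rfl, hv'] at c6
    have d2 : v.2 = 0 := congrArg Prod.snd c6
    have d1 := congrArg Prod.fst c6
    simp only [d2, mul_zero, add_zero, zero_mul, Prod.fst_zero, div_eq_zero_iff, mul_eq_zero,
      (NL_pos _ _).ne', (nn_pos _ _).ne', false_or, or_false] at d1
    exact Prod.ext d1 d2
  let D := (LinearEquiv.ofInjectiveEndo _ hinj).toContinuousLinearEquiv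
  have hD : (D : (ℝ × ℝ) →L[ℝ] (ℝ × ℝ)) = fderiv ℝ Φ p := by ext <;> rfl
  rw [← hD] at hs
  have hg := hs.to_local_left_inverse (g := fun q : ℝ × ℝ => (Lam q.1 q.2, q.2))
    (Eventually.of_forall fun x => by simp [Φ, Lam_hh])
  have e : Φ p = (c, φ) := by simp [Φ, hp, hh_Lam]
  rw [e] at hg
  have h1 : DifferentiableAt ℝ (fun s : ℝ => (c, s)) φ := by fun_prop
  exact (hg.hasFDerivAt.differentiableAt.comp φ h1).fst

theorem hasDerivAt_Lam (c φ : ℝ) :
    HasDerivAt (Lam c) (-(NA (Lam c φ) φ / NL (Lam c φ) φ)) φ := by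
  have h1 := (differentiableAt_Lam c φ).hasDerivAt
  have h2 := hasDerivAt_hh h1 (hasDerivAt_id φ)
  simp only [id, hh_Lam] at h2
  have h3 := h2.unique (hasDerivAt_const φ c)
  have h4 := (NL_pos (Lam c φ) φ).ne'
  rw [div_eq_zero_iff, or_iff_left (nn_pos _ _).ne'] at h3
  refine h1.congr_deriv ?_
  field_simp
  linarith

noncomputable def mu (c φ : ℝ) : ℝ :=
  (2 * cos φ ^ 2 + 3 * sin φ ^ 2) / (exp (Lam c φ) ^ 7 * NL (Lam c φ) φ)

theorem mu_pos (c φ : ℝ) : 0 < mu c φ := by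
  apply div_pos
  · nlinarith [sin_sq_add_cos_sq φ, sq_nonneg (sin φ)]
  · exact mul_pos (pow_pos (exp_pos _) _) (NL_pos _ _)

theorem continuous_mu (c : ℝ) : Continuous (mu c) := by
  have h : Continuous (Lam c) :=
    continuous_iff_continuousAt.2 fun φ => (differentiableAt_Lam c φ).continuousAt
  unfold mu
  apply Continuous.div (by fun_prop)
  · unfold NL uu vv; fun_prop
  · intro φ; exact (mul_pos (pow_pos (exp_pos _) _) (NL_pos _ _)).ne'

theorem hasDerivAt_curve (c φ : ℝ) :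
    HasDerivAt (fun s => pm (Lam c s) s) (mu c φ • cuspField (pm (Lam c φ) φ)) φ := by
  have h1 := (hasDerivAt_Lam c φ).exp
  have h2 := (h1.pow 2).mul (hasDerivAt_cos φ)
  have h3 := (h1.pow 3).mul (hasDerivAt_sin φ)
  have h4 := (NL_pos (Lam c φ) φ).ne'
  have h5 := (exp_pos (Lam c φ)).ne'
  refine (h2.prodMk h3).congr_deriv ?_
  simp only [cuspField, pm, mu, Prod.smul_mk, smul_eq_mul, Pi.pow_apply, Prod.mk.injEq]
  constructor
  · field_simp
    simp only [NL, NA, uu, vv, uu', vv']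
    push_cast
    ring
  · field_simp
    simp only [NL, NA, uu, vv, uu', vv']
    push_cast
    ring

theorem exists_arc (c : ℝ) {φ0 φ1 : ℝ} (h : φ0 < φ1) :
    ∃ T > 0, ∃ γ : ℝ → ℝ × ℝ, γ 0 = pm (Lam c φ0) φ0 ∧ γ T = pm (Lam c φ1) φ1 ∧
      (∀ t ∈ Set.Icc 0 T, HasDerivAt γ (cuspField (γ t)) t ∧
        ∃ φ ∈ Set.Icc φ0 φ1, γ t = pm (Lam c φ) φ) ∧
      ∀ t ∈ Set.Ioo 0 T, ∃ φ ∈ Set.Ioo φ0 φ1, γ t = pm (Lam c φ) φ := by
  let τ : ℝ → ℝ := fun φ => ∫ s in φ0..φ, mu c s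
  have hτ : ∀ φ, HasStrictDerivAt τ (mu c φ) φ := fun φ =>
    (continuous_mu c).integral_hasStrictDerivAt φ0 φ
  have hmono : StrictMono τ := strictMono_of_deriv_pos fun φ => by
    rw [(hτ φ).hasDerivAt.deriv]; exact mu_pos c φ
  have hcont : Continuous τ := continuous_iff_continuousAt.2 fun φ => (hτ φ).hasDerivAt.continuousAt
  have h0 : τ φ0 = 0 := by simp [τ]
  let θ : ℝ → ℝ := Function.invFun τ
  have hθ : ∀ φ, θ (τ φ) = φ := Function.leftInverse_invFun hmono.injective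
  refine ⟨τ φ1, h0 ▸ hmono h, fun t => pm (Lam c (θ t)) (θ t), ?_, ?_, ?_, ?_⟩
  · simp only [← h0, hθ]
  · simp only [hθ]
  · intro t ht
    rw [← h0] at ht
    obtain ⟨φ, hφ, rfl⟩ := intermediate_value_Icc h.le hcont.continuousOn ht
    refine ⟨?_, φ, hφ, by simp only [hθ]⟩
    have h1 := ((hτ φ).to_local_left_inverse (mu_pos c φ).ne' (g := θ)
      (Eventually.of_forall hθ)).hasDerivAt
    have h2 := hasDerivAt_curve c (θ (τ φ))
    have h3 := h2.scomp (τ φ) h1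
    refine h3.congr_deriv ?_
    simp only [hθ]
    rw [smul_smul, inv_mul_cancel₀ (mu_pos c φ).ne', one_smul]
  · intro t ht
    rw [← h0] at ht
    obtain ⟨φ, hφ, rfl⟩ := intermediate_value_Ioo h.le hcont.continuousOn ht
    exact ⟨φ, hφ, by simp only [hθ]⟩

end Pool.Agent.Lib.MP_296844_an
end

-- part Pool.Agent.Lib.MP_296844_an.Polar
section

set_option autoImplicit false

/-! Weighted polar coordinates: lifts, uniqueness, size. -/

namespace Pool.Agent.Lib.MP_296844_an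

open Filter Topology Real

theorem ff_pm (L φ : ℝ) : ff (pm L φ) = (exp L ^ 6 : ℝ) * zz L φ := by
  simp only [ff, pm, zz, uu, vv]
  push_cast
  ring

theorem norm_ww (L φ : ℝ) : ‖ww L φ‖ = ‖zz L φ‖ := by
  simp [ww, Complex.norm_exp_ofReal_mul_I]

theorem norm_ff_pm (L φ : ℝ) : ‖ff (pm L φ)‖ = exp L ^ 6 * ‖ww L φ‖ := by
  rw [ff_pm, norm_mul, norm_ww, Complex.norm_real, Real.norm_eq_abs, abs_of_pos (by positivity)]

theorem norm_ww_pos (L φ : ℝ) : 0 < ‖ww L φ‖ :=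
  norm_pos_iff.2 (Complex.slitPlane_ne_zero (ww_slit L φ))

theorem norm_ff_pm_pos (L φ : ℝ) : 0 < ‖ff (pm L φ)‖ := by
  rw [norm_ff_pm]; exact mul_pos (by positivity) (norm_ww_pos L φ)

theorem hh_eq (L φ : ℝ) : hh L φ = log ‖ff (pm L φ)‖ - AA L φ := by
  rw [norm_ff_pm, log_mul (by positivity) (norm_ww_pos L φ).ne', log_pow, log_exp, hh]
  push_cast
  ring

theorem ff_polar (L φ : ℝ) :
    ff (pm L φ) = (‖ff (pm L φ)‖ : ℝ) * Complex.exp (AA L φ * Complex.I) := by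
  have h1 := Complex.norm_mul_exp_arg_mul_I (ww L φ)
  have h2 : Complex.exp (AA L φ * Complex.I) = -Complex.exp (-(φ * Complex.I)) *
      Complex.exp (Complex.arg (ww L φ) * Complex.I) := by
    rw [AA]
    push_cast
    rw [add_mul, Complex.exp_add, sub_mul, sub_eq_add_neg, Complex.exp_add, Complex.exp_pi_mul_I]
    ring
  have h3 : zz L φ = -Complex.exp (-(φ * Complex.I)) * ww L φ := by
    rw [ww, Complex.exp_neg]
    field_simp
  rw [norm_ff_pm, h2, ff_pm, h3]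
  push_cast
  linear_combination (-(Complex.exp L) ^ 6 * -Complex.exp (-(φ * Complex.I))) * h1

theorem exists_lift (z : ℝ × ℝ) (hz : z ≠ 0) : ∃ L φ, pm L φ = z := by
  obtain ⟨x, y⟩ := z
  have h1 : ∃ ρ : ℝ, 0 < ρ ∧ ρ ^ 6 = ρ ^ 2 * x ^ 2 + y ^ 2 := by
    by_cases hy : y = 0
    · have hx : x ≠ 0 := fun hx => hz (by simp [hx, hy])
      refine ⟨√|x|, Real.sqrt_pos.2 (abs_pos.2 hx), ?_⟩
      have h2 : √|x| ^ 2 = |x| := Real.sq_sqrt (abs_nonneg x)
      rw [show √|x| ^ 6 = (√|x| ^ 2) ^ 3 by ring, h2, hy, ← sq_abs x]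
      ring
    · have hc : ContinuousOn (fun ρ : ℝ => ρ ^ 6 - ρ ^ 2 * x ^ 2 - y ^ 2)
          (Set.Icc 0 (1 + x ^ 2 + y ^ 2)) := by fun_prop
      have hy2 : 0 < y ^ 2 := by positivity
      have hR : (0 : ℝ) ≤ 1 + x ^ 2 + y ^ 2 := by positivity
      obtain ⟨ρ, hρ, e⟩ := intermediate_value_Ioc hR hc (show (0 : ℝ) ∈ _ from ⟨by simpa, by
        set R := 1 + x ^ 2 + y ^ 2 with hRd
        have a1 : 1 ≤ R := by nlinarith [sq_nonneg x]
        have a2 : R ≤ R ^ 4 := le_self_pow₀ a1 (by norm_num)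
        have a3 : 1 ≤ R ^ 2 := one_le_pow₀ a1
        show 0 ≤ R ^ 6 - R ^ 2 * x ^ 2 - y ^ 2
        nlinarith [mul_le_mul_of_nonneg_left a2 (sq_nonneg R)]⟩)
      exact ⟨ρ, hρ.1, by simp only at e; linarith⟩
  obtain ⟨ρ, hρ, e⟩ := h1
  let w : ℂ := ⟨x / ρ ^ 2, y / ρ ^ 3⟩
  have hw : ‖w‖ = 1 := by
    rw [Complex.norm_def, Complex.normSq_mk, Real.sqrt_eq_one]
    field_simp
    linarith
  have hw0 : w ≠ 0 := by
    intro h; rw [h, norm_zero] at hw; exact zero_ne_one hw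
  refine ⟨log ρ, Complex.arg w, ?_⟩
  rw [pm, exp_log hρ, Complex.cos_arg hw0, Complex.sin_arg, hw]
  simp only [w, div_one]
  congr 1 <;> field_simp

theorem lift_unique {L φ L' φ' : ℝ} (h : pm L φ = pm L' φ') : ww L φ = ww L' φ' := by
  have aux : ∀ {L φ L' φ' : ℝ}, pm L φ = pm L' φ' → ¬ L < L' := by
    intro L φ L' φ' h hlt
    simp only [pm, Prod.mk.injEq] at h
    have h1 : exp L < exp L' := exp_lt_exp.2 hlt
    have h0 := exp_pos L
    set a := exp L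
    set b := exp L'
    have e1 := sin_sq_add_cos_sq φ
    have e2 := sin_sq_add_cos_sq φ'
    have f1 : a ^ 4 * cos φ ^ 2 = b ^ 4 * cos φ' ^ 2 := by
      linear_combination (a ^ 2 * cos φ + b ^ 2 * cos φ') * h.1
    have f2 : a ^ 6 * sin φ ^ 2 = b ^ 6 * sin φ' ^ 2 := by
      linear_combination (a ^ 3 * sin φ + b ^ 3 * sin φ') * h.2
    have g1 : a ^ 4 < b ^ 4 := pow_lt_pow_left₀ h1 h0.le (by norm_num)
    have g2 : a ^ 6 < b ^ 6 := pow_lt_pow_left₀ h1 h0.le (by norm_num)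
    have p4 : 0 < a ^ 4 := by positivity
    have p6 : 0 < a ^ 6 := by positivity
    have k1 : cos φ' ^ 2 ≤ cos φ ^ 2 := by
      by_contra hc
      nlinarith [sq_nonneg (cos φ'), sq_nonneg (cos φ)]
    have k2 : sin φ' ^ 2 ≤ sin φ ^ 2 := by
      by_contra hc
      nlinarith [sq_nonneg (sin φ'), sq_nonneg (sin φ)]
    have k3 : cos φ ^ 2 = cos φ' ^ 2 := by linarith
    have k4 : sin φ ^ 2 = sin φ' ^ 2 := by linarith
    rw [k3] at f1
    rw [k4] at f2
    have m1 : cos φ' ^ 2 = 0 := by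
      by_contra hc
      exact g1.ne (mul_right_cancel₀ hc f1)
    have m2 : sin φ' ^ 2 = 0 := by
      by_contra hc
      exact g2.ne (mul_right_cancel₀ hc f2)
    linarith
  have hL : L = L' := le_antisymm (not_lt.1 (aux h.symm)) (not_lt.1 (aux h))
  subst hL
  simp only [pm, Prod.mk.injEq] at h
  have h0 := (exp_pos L).ne'
  have c1 := mul_left_cancel₀ (pow_ne_zero 2 h0) h.1
  have c2 := mul_left_cancel₀ (pow_ne_zero 3 h0) h.2
  apply Complex.ext
  · rw [ww_re, ww_re, c1, c2]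
  · rw [ww_im, ww_im, c1, c2]

theorem pm_add (L φ : ℝ) (k : ℤ) : pm L (φ + k * (2 * π)) = pm L φ := by
  simp only [pm, cos_add_int_mul_two_pi, sin_add_int_mul_two_pi]

theorem small_of_ff {δ : ℝ} (hδ : 0 < δ) :
    ∃ δ' > 0, ∀ z : ℝ × ℝ, ‖ff z‖ < δ' → ‖z‖ < δ := by
  wlog h : δ ≤ 1 / 2 generalizing δ
  · obtain ⟨δ', h1, h2⟩ := this (show (0 : ℝ) < 1 / 2 by norm_num) le_rfl
    exact ⟨δ', h1, fun z hz => (h2 z hz).trans (not_le.1 h)⟩
  refine ⟨δ ^ 4 / 2, by positivity, ?_⟩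
  rintro ⟨x, y⟩ hz
  have hre : |y ^ 2 - x ^ 3| < δ ^ 4 / 2 := by
    have := (Complex.abs_re_le_norm _).trans_lt hz
    simpa [ff, -Complex.ofReal_pow, -Complex.ofReal_sub, -Complex.ofReal_mul] using this
  have him : |x ^ 2 * y| < δ ^ 4 / 2 := by
    have := (Complex.abs_im_le_norm _).trans_lt hz
    simpa [ff, -Complex.ofReal_pow, -Complex.ofReal_sub, -Complex.ofReal_mul, -abs_mul]
      using this
  rw [abs_mul, abs_pow] at him
  have t1 : |y| ^ 2 - |x| ^ 3 < δ ^ 4 / 2 := by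
    have := abs_sub_abs_le_abs_sub (y ^ 2) (x ^ 3)
    rw [abs_pow, abs_pow] at this
    linarith
  have t2 : |x| ^ 3 - |y| ^ 2 < δ ^ 4 / 2 := by
    have := abs_sub_abs_le_abs_sub (x ^ 3) (y ^ 2)
    rw [abs_pow, abs_pow, abs_sub_comm] at this
    linarith
  rw [Prod.norm_def, Real.norm_eq_abs, Real.norm_eq_abs]
  have ha := abs_nonneg x
  have hb := abs_nonneg y
  set a := |x|
  set b := |y|
  have d2 : 0 < δ ^ 2 := by positivity
  have d3 : 0 < δ ^ 3 := by positivity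
  have d4 : δ ^ 4 ≤ δ ^ 3 / 2 := by nlinarith
  have d5 : δ ^ 3 ≤ δ ^ 2 / 2 := by nlinarith
  have hx : a < δ := by
    by_contra hc
    rw [not_lt] at hc
    have a2 : δ ^ 2 ≤ a ^ 2 := pow_le_pow_left₀ hδ.le hc 2
    have a3 : δ ^ 3 ≤ a ^ 3 := pow_le_pow_left₀ hδ.le hc 3
    by_cases hb2 : δ ^ 2 ≤ b
    · nlinarith [mul_le_mul a2 hb2 d2.le (sq_nonneg a)]
    · rw [not_le] at hb2
      have : b ^ 2 < (δ ^ 2) ^ 2 := pow_lt_pow_left₀ hb2 hb (by norm_num)
      nlinarith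
  have hy : b < δ := by
    by_contra hc
    rw [not_lt] at hc
    have b2 : δ ^ 2 ≤ b ^ 2 := pow_le_pow_left₀ hδ.le hc 2
    have a3 : a ^ 3 < δ ^ 3 := pow_lt_pow_left₀ hx ha (by norm_num)
    nlinarith
  exact max_lt hx hy

theorem arg_of_re {L φ : ℝ} {z : ℝ × ℝ} (h : pm L φ = z) (hz : z.2 ^ 2 < |z.1| ^ 3) :
    |Complex.arg (ww L φ) - 0| < π / 2 := by
  rw [sub_zero, Complex.abs_arg_lt_pi_div_two_iff, ww_re]
  left
  subst h
  simp only [pm, abs_mul, abs_pow, abs_exp] at hz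
  have h0 := exp_pos L
  have h1 : sin φ ^ 2 < |cos φ| ^ 3 := by
    have : exp L ^ 6 * sin φ ^ 2 < exp L ^ 6 * |cos φ| ^ 3 := by linarith
    exact lt_of_mul_lt_mul_left this (by positivity)
  have h2 : 0 ≤ exp L * cos φ ^ 2 * sin φ ^ 2 := by positivity
  rcases lt_trichotomy (cos φ) 0 with hc | hc | hc
  · have : cos φ ^ 3 < 0 := Odd.pow_neg (by decide) hc
    nlinarith [sq_nonneg (sin φ)]
  · rw [hc] at h1; simp at h1; nlinarith [sq_nonneg (sin φ)]
  · rw [abs_of_pos hc] at h1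
    nlinarith

theorem im_aux {L φ : ℝ} {z : ℝ × ℝ} (h : pm L φ = z) (hz : |z.1| ^ 3 < z.2 ^ 2)
    (hs : z.1 ^ 2 + z.2 ^ 2 < 1) : 0 < sin φ ^ 2 - cos φ ^ 3 + exp L * cos φ ^ 3 := by
  subst h
  simp only [pm, abs_mul, abs_pow, abs_exp] at hz hs
  have h0 := exp_pos L
  have h1 : |cos φ| ^ 3 < sin φ ^ 2 := by
    have : exp L ^ 6 * |cos φ| ^ 3 < exp L ^ 6 * sin φ ^ 2 := by linarith
    exact lt_of_mul_lt_mul_left this (by positivity)
  have h2 : exp L < 1 := by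
    by_contra hc
    rw [not_lt] at hc
    have a4 : 1 ≤ exp L ^ 4 := one_le_pow₀ hc
    have a6 : 1 ≤ exp L ^ 6 := one_le_pow₀ hc
    nlinarith [sin_sq_add_cos_sq φ, sq_nonneg (sin φ), sq_nonneg (cos φ)]
  have h3 : cos φ ^ 3 ≤ |cos φ| ^ 3 := by rw [← abs_pow]; exact le_abs_self _
  have h4 : 0 ≤ |cos φ| ^ 3 := by positivity
  nlinarith

theorem arg_of_pos {L φ : ℝ} {z : ℝ × ℝ} (h : pm L φ = z) (hz : |z.1| ^ 3 < z.2 ^ 2)
    (hs : z.1 ^ 2 + z.2 ^ 2 < 1) (hy : 0 < z.2) :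
    |Complex.arg (ww L φ) - (-(π / 2))| < π / 2 := by
  have h1 := im_aux h hz hs
  subst h
  have h2 : 0 < sin φ := by
    simp only [pm] at hy
    exact (mul_pos_iff_of_pos_left (by positivity)).1 hy
  have h3 : Complex.arg (ww L φ) < 0 := by
    rw [Complex.arg_neg_iff, ww_im]
    nlinarith
  have h4 := Complex.neg_pi_lt_arg (ww L φ)
  rw [abs_lt]
  constructor <;> linarith

theorem arg_of_neg {L φ : ℝ} {z : ℝ × ℝ} (h : pm L φ = z) (hz : |z.1| ^ 3 < z.2 ^ 2)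
    (hs : z.1 ^ 2 + z.2 ^ 2 < 1) (hy : z.2 < 0) :
    |Complex.arg (ww L φ) - π / 2| < π / 2 := by
  have h1 := im_aux h hz hs
  subst h
  have h2 : sin φ < 0 := by
    simp only [pm] at hy
    by_contra hc
    exact absurd hy (not_lt.2 (mul_nonneg (by positivity) (not_lt.1 hc)))
  have h5 : 0 < (ww L φ).im := by
    rw [ww_im]
    nlinarith
  have h3 : 0 < Complex.arg (ww L φ) := by
    apply lt_of_le_of_ne (Complex.arg_nonneg_iff.2 h5.le)
    intro h0
    exact h5.ne' (Complex.arg_eq_zero_iff.1 h0.symm).2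
  have h4 : Complex.arg (ww L φ) < π := Complex.arg_lt_pi_iff.2 (Or.inr h5.ne')
  rw [abs_lt]
  constructor <;> linarith

end Pool.Agent.Lib.MP_296844_an
end

-- part Pool.Agent.Lib.MP_296844_an.Section
section

set_option autoImplicit false

/-! The first return to an analytic section through the origin. -/

namespace Pool.Agent.Lib.MP_296844_an

open Filter Topology Real

theorem section_return (σ : ℝ → ℝ × ℝ) (m : ℕ) (hm : 0 < m) (g : ℝ → ℂ) (κ : ℝ) (hκ : κ ≠ 0)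
    (hg : AnalyticAt ℝ g 0) (hg0 : g 0 = κ) (hf : ∀ s, ff (σ s) = (s ^ m : ℝ) * g s) (θ0 : ℝ)
    (hθ : ∀ᶠ s in 𝓝[>] (0 : ℝ), ∀ L φ, pm L φ = σ s → |Complex.arg (ww L φ) - θ0| < π / 2) :
    ∃ ε1 > 0, ∃ R : ℝ → ℝ, Tendsto (fun s => R s / s) (𝓝[>] 0) (𝓝 (exp (-(2 * π) / m))) ∧
      ∀ δ > 0, ∀ᶠ s in 𝓝[>] (0 : ℝ), 0 < R s ∧ R s < s ∧ ∃ T > 0, ∃ γ : ℝ → ℝ × ℝ,
        γ 0 = σ s ∧ γ T = σ (R s) ∧
        (∀ t ∈ Set.Icc 0 T, ‖γ t‖ < δ ∧ HasDerivAt γ (cuspField (γ t)) t) ∧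
        ∀ t ∈ Set.Ioo 0 T, ∀ s' ∈ Set.Ioo 0 ε1, γ t ≠ σ s' := by
  have hκ' : (κ : ℂ) ≠ 0 := Complex.ofReal_ne_zero.2 hκ
  have hm' : (0 : ℝ) < m := by exact_mod_cast hm
  let g1 : ℝ → ℂ := fun s => g s / κ
  have hg1 : AnalyticAt ℝ g1 0 := hg.div_const
  have hg10 : g1 0 = 1 := by simp [g1, hg0, hκ']
  have hl : AnalyticAt ℝ (fun s => Complex.log (g1 s)) 0 := by
    have h1 : AnalyticAt ℂ Complex.log (g1 0) := analyticAt_clog (by rw [hg10]; simp)
    exact h1.restrictScalars.comp hg1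
  let r : ℝ → ℝ := fun s => log ‖g1 s‖ - Complex.arg (g1 s)
  have hr : AnalyticAt ℝ r 0 := by
    have h1 := ((Complex.reCLM.analyticAt _).comp hl).sub ((Complex.imCLM.analyticAt _).comp hl)
    refine h1.congr (Eventually.of_forall fun s => ?_)
    simp [r, Complex.log_re, Complex.log_im]
  let E : ℝ → ℝ := fun s => m * log s + r s
  have ev1 : ∀ᶠ s in 𝓝[>] (0 : ℝ), HasDerivAt E (m * s⁻¹ + deriv r s) s ∧
      0 < m * s⁻¹ + deriv r s := by
    have h1 : ∀ᶠ s in 𝓝 (0 : ℝ), deriv r 0 - 1 < deriv r s :=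
      continuousAt_const.eventually_lt hr.deriv.continuousAt (by simp)
    have h2 : ∀ᶠ s in 𝓝[>] (0 : ℝ), 1 - deriv r 0 < m * s⁻¹ :=
      (tendsto_inv_nhdsGT_zero.const_mul_atTop hm').eventually_gt_atTop _
    filter_upwards [nhdsWithin_le_nhds h1, h2, nhdsWithin_le_nhds hr.eventually_analyticAt,
      self_mem_nhdsWithin] with s a1 a2 a3 a4
    refine ⟨((hasDerivAt_log (ne_of_gt a4)).const_mul (m : ℝ)).add
      (AnalyticAt.differentiableAt a3).hasDerivAt, ?_⟩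
    have a1' : deriv r 0 - 1 < deriv r s := a1
    linarith
  have ev2 : ∀ᶠ s in 𝓝[>] (0 : ℝ), 0 < (g1 s).re := by
    apply nhdsWithin_le_nhds
    have : ContinuousAt (fun s => (g1 s).re) 0 :=
      Complex.continuous_re.continuousAt.comp hg1.continuousAt
    exact continuousAt_const.eventually_lt this (by simp [hg10])
  obtain ⟨ε1, hε1, hall⟩ := (mem_nhdsGT_iff_exists_Ioo_subset).1 (ev1.and (ev2.and hθ))
  have hε1' : 0 < ε1 := hε1
  have hEc : ContinuousOn E (Set.Ioo 0 ε1) := fun s hs =>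
    (hall hs).1.1.continuousAt.continuousWithinAt
  have hEm : StrictMonoOn E (Set.Ioo 0 ε1) := by
    apply strictMonoOn_of_deriv_pos (convex_Ioo _ _) hEc
    intro s hs
    rw [interior_Ioo] at hs
    rw [(hall hs).1.1.deriv]; exact (hall hs).1.2
  have hrc : Tendsto r (𝓝[>] 0) (𝓝 (r 0)) := hr.continuousAt.tendsto.mono_left nhdsWithin_le_nhds
  have hEb : Tendsto E (𝓝[>] 0) atBot :=
    (tendsto_log_nhdsGT_zero.const_mul_atBot hm').atBot_add hrc
  have hR : ∀ s ∈ Set.Ioo 0 ε1, ∃ s1 ∈ Set.Ioo 0 s, E s1 = E s - 2 * π := by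
    intro s hs
    obtain ⟨s2, h1, h2⟩ := ((hEb.eventually_lt_atBot (E s - 2 * π)).and
      (Ioo_mem_nhdsGT hs.1)).exists
    obtain ⟨s1, h3, h4⟩ := intermediate_value_Ioo h2.2.le
      (hEc.mono (fun x hx => ⟨h2.1.trans_le hx.1, hx.2.trans_lt hs.2⟩))
      (show E s - 2 * π ∈ _ from ⟨h1, by linarith [pi_pos]⟩)
    exact ⟨s1, ⟨h2.1.trans h3.1, h3.2⟩, h4⟩
  choose! R hR1 hR2 using hR
  obtain ⟨A0, hA0⟩ : ∃ A0 : ℝ, (κ : ℂ) = (|κ| : ℝ) * Complex.exp (A0 * Complex.I) := by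
    refine ⟨Complex.arg κ, ?_⟩
    have := Complex.norm_mul_exp_arg_mul_I (κ : ℂ)
    rw [Complex.norm_real, Real.norm_eq_abs] at this
    exact this.symm
  have hk : 0 < |κ| := abs_pos.2 hκ
  have hnorm : ∀ s ∈ Set.Ioo 0 ε1, ‖ff (σ s)‖ = s ^ m * (|κ| * ‖g1 s‖) := by
    intro s hs
    have : g s = κ * g1 s := by simp only [g1]; field_simp
    rw [hf, this, norm_mul, norm_mul, Complex.norm_real, Complex.norm_real, Real.norm_eq_abs,
      Real.norm_eq_abs, abs_of_pos (pow_pos hs.1 m)]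
  have hg1ne : ∀ s ∈ Set.Ioo 0 ε1, g1 s ≠ 0 := by
    intro s hs h0
    have := (hall hs).2.1
    rw [h0] at this; simp at this
  have hlift : ∀ s ∈ Set.Ioo 0 ε1, ∀ L φ, pm L φ = σ s → ∃ k : ℤ,
      hh L φ = E s + (log |κ| - A0) + k * (2 * π) ∧
      φ = π - A0 + (Complex.arg (ww L φ) - Complex.arg (g1 s)) + k * (2 * π) := by
    intro s hs L φ h
    have n1 : 0 < ‖g1 s‖ := norm_pos_iff.2 (hg1ne s hs)
    have h1 := ff_polar L φ
    have h0 := norm_ff_pm_pos L φ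
    rw [h] at h1 h0
    have h2 : ff (σ s) = (‖ff (σ s)‖ : ℝ) *
        Complex.exp (((A0 + Complex.arg (g1 s) : ℝ) : ℂ) * Complex.I) := by
      have e1 : g s = κ * g1 s := by simp only [g1]; field_simp
      have e2 := Complex.norm_mul_exp_arg_mul_I (g1 s)
      rw [hnorm s hs, hf, e1]
      push_cast
      rw [add_mul, Complex.exp_add]
      linear_combination (s ^ m * g1 s : ℂ) * hA0 -
        ((s : ℂ) ^ m * (|κ| : ℝ) * Complex.exp (A0 * Complex.I)) * e2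
    have h3 := mul_left_cancel₀ (Complex.ofReal_ne_zero.2 h0.ne') (h1.symm.trans h2)
    obtain ⟨n, hn⟩ := Complex.exp_eq_exp_iff_exists_int.1 h3
    have h4 : AA L φ = A0 + Complex.arg (g1 s) + n * (2 * π) := by
      have := congrArg Complex.im hn
      simpa using this
    refine ⟨-n, ?_, ?_⟩
    · rw [hh_eq, h, hnorm s hs, log_mul (pow_pos hs.1 m).ne' (mul_pos hk n1).ne',
        log_mul hk.ne' n1.ne', log_pow, h4]
      simp only [E, r]
      push_cast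
      ring
    · rw [AA] at h4
      push_cast
      linarith
  have hB : ∀ s ∈ Set.Ioo 0 ε1, ∀ L φ, pm L φ = σ s →
      |Complex.arg (ww L φ) - Complex.arg (g1 s) - θ0| < π := by
    intro s hs L φ h
    have h1 := (hall hs).2.2 L φ h
    have h2 : |Complex.arg (g1 s)| < π / 2 :=
      Complex.abs_arg_lt_pi_div_two_iff.2 (Or.inl (hall hs).2.1)
    rw [abs_lt] at h1 h2 ⊢
    constructor <;> linarith
  have hσ : ∀ s ∈ Set.Ioo 0 ε1, ∃ L φ, pm L φ = σ s := by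
    intro s hs
    apply exists_lift
    intro h0
    have h1 := hnorm s hs
    have n1 : 0 < ‖g1 s‖ := norm_pos_iff.2 (hg1ne s hs)
    have h2 : 0 < s ^ m * (|κ| * ‖g1 s‖) := mul_pos (pow_pos hs.1 m) (mul_pos hk n1)
    rw [← h1, h0] at h2
    simp [ff] at h2
  have hRt : Tendsto R (𝓝[>] 0) (𝓝[>] 0) := by
    rw [tendsto_nhdsWithin_iff]
    constructor
    · apply tendsto_of_tendsto_of_tendsto_of_le_of_le' tendsto_const_nhds
        (tendsto_id.mono_left nhdsWithin_le_nhds)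
      · filter_upwards [Ioo_mem_nhdsGT hε1'] with s hs using (hR1 s hs).1.le
      · filter_upwards [Ioo_mem_nhdsGT hε1'] with s hs using (hR1 s hs).2.le
    · filter_upwards [Ioo_mem_nhdsGT hε1'] with s hs using (hR1 s hs).1
  refine ⟨ε1, hε1', R, ?_, ?_⟩
  · have h1 : Tendsto (fun s => exp ((-(2 * π) + (r s - r (R s))) / m)) (𝓝[>] 0)
        (𝓝 (exp ((-(2 * π) + (r 0 - r 0)) / m))) :=
      (((hrc.sub (hrc.comp hRt)).const_add _).div_const _).rexp
    rw [sub_self, add_zero] at h1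
    refine h1.congr' ?_
    filter_upwards [Ioo_mem_nhdsGT hε1'] with s hs
    have h2 := hR2 s hs
    simp only [E] at h2
    have h3 : (-(2 * π) + (r s - r (R s))) / m = log (R s) - log s := by
      field_simp
      linarith
    rw [h3, exp_sub, exp_log (hR1 s hs).1, exp_log hs.1]
  · intro δ hδ
    obtain ⟨δ', hδ', hsmall⟩ := small_of_ff hδ
    have ev3 : ∀ᶠ s in 𝓝[>] (0 : ℝ), ‖ff (σ s)‖ * exp (2 * π) < δ' := by
      apply nhdsWithin_le_nhds
      have h1 : ContinuousAt (fun s : ℝ => ‖((s ^ m : ℝ) : ℂ) * g s‖ * exp (2 * π)) 0 := by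
        have := hg.continuousAt
        fun_prop
      simp only [hf]
      exact h1.eventually_lt continuousAt_const (by simpa [zero_pow hm.ne'] using hδ')
    filter_upwards [ev3, Ioo_mem_nhdsGT hε1'] with s hs3 hs
    have hs1 : R s ∈ Set.Ioo 0 ε1 := ⟨(hR1 s hs).1, (hR1 s hs).2.trans hs.2⟩
    obtain ⟨L0, φ0, p0⟩ := hσ s hs
    obtain ⟨k0, a0, b0⟩ := hlift s hs L0 φ0 p0
    obtain ⟨L1, φ1', p1'⟩ := hσ (R s) hs1
    obtain ⟨k1, a1, b1⟩ := hlift (R s) hs1 L1 φ1' p1'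
    set φ1 := φ1' + ((k0 + 1 - k1 : ℤ) : ℝ) * (2 * π) with hφ1
    have p1 : pm L1 φ1 = σ (R s) := by rw [hφ1, pm_add, p1']
    have w1 : ww L1 φ1 = ww L1 φ1' := lift_unique (p1.trans p1'.symm)
    have a1' : hh L1 φ1 = hh L0 φ0 := by
      have : hh L1 φ1 = hh L1 φ1' + ((k0 + 1 - k1 : ℤ) : ℝ) * (2 * π) := by
        simp only [hh, AA, w1]
        rw [hφ1]; ring
      rw [this, a1, a0, hR2 s hs]
      push_cast
      ring
    have c0 := hB s hs L0 φ0 p0
    have c1 := hB (R s) hs1 L1 φ1' p1'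
    rw [abs_lt] at c0 c1
    have b1' : φ1 = π - A0 + (Complex.arg (ww L1 φ1') - Complex.arg (g1 (R s))) +
        (k0 + 1) * (2 * π) := by
      rw [hφ1]; push_cast; linarith
    have hlt : φ0 < φ1 := by linarith
    obtain ⟨T, hT, γ, g0, gT, gd, gi⟩ := exists_arc (hh L0 φ0) hlt
    refine ⟨(hR1 s hs).1, (hR1 s hs).2, T, hT, γ, ?_, ?_, ?_, ?_⟩
    · rw [g0, Lam_hh, p0]
    · rw [gT, ← a1', Lam_hh, p1]
    · intro t ht
      obtain ⟨d1, φ, hφ, e⟩ := gd t ht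
      refine ⟨hsmall _ ?_, d1⟩
      rw [e]
      refine lt_of_le_of_lt ?_ hs3
      have q1 := hh_eq (Lam (hh L0 φ0) φ) φ
      have q2 := hh_eq L0 φ0
      rw [hh_Lam] at q1
      rw [← exp_log (norm_ff_pm_pos _ φ), ← p0, ← exp_log (norm_ff_pm_pos L0 φ0), ← exp_add,
        exp_le_exp]
      simp only [AA] at q1 q2
      have q3 := Complex.arg_le_pi (ww (Lam (hh L0 φ0) φ) φ)
      have q4 := Complex.neg_pi_lt_arg (ww L0 φ0)
      linarith [hφ.1]
    · intro t ht s' hs' e'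
      obtain ⟨φ, hφ, e⟩ := gi t ht
      set L := Lam (hh L0 φ0) φ with hL
      have p : pm L φ = σ s' := e.symm.trans e'
      obtain ⟨k, a, b⟩ := hlift s' hs' L φ p
      have c := hB s' hs' L φ p
      rw [abs_lt] at c
      rw [hL, hh_Lam] at a
      have pi2 : 0 < 2 * π := by positivity
      have k1' : k0 - 1 < k := by
        have : ((k0 : ℝ) - 1) * (2 * π) < k * (2 * π) := by linarith [hφ.1]
        exact_mod_cast lt_of_mul_lt_mul_right this pi2.le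
      have k2' : k < k0 + 2 := by
        have : (k : ℝ) * (2 * π) < (k0 + 2) * (2 * π) := by linarith [hφ.2]
        exact_mod_cast lt_of_mul_lt_mul_right this pi2.le
      rcases (show k = k0 ∨ k = k0 + 1 by omega) with rfl | rfl
      · have : s' = s := hEm.injOn hs' hs (by linarith)
        subst this
        rw [lift_unique (p.trans p0.symm)] at b
        linarith [hφ.1]
      · have : s' = R s := hEm.injOn hs' hs1 (by
          rw [hR2 s hs]; push_cast at a; linarith)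
        subst this
        rw [lift_unique (p.trans p1'.symm)] at b
        push_cast at b
        linarith [hφ.2]

end Pool.Agent.Lib.MP_296844_an
end

-- part Pool.Agent.Lib.MP_296844_an.Curve
section

set_option autoImplicit false

/-! The first return to a regular analytic curve through the origin. -/

namespace Pool.Agent.Lib.MP_296844_an

open Filter Topology Real

theorem exists_factor {x : ℝ → ℝ} (hx : AnalyticAt ℝ x 0) (h0 : x 0 = 0) :
    ∃ x1 : ℝ → ℝ, AnalyticAt ℝ x1 0 ∧ x1 0 = deriv x 0 ∧ ∀ s, x s = s * x1 s := by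
  obtain ⟨p, hp⟩ := hx
  refine ⟨dslope x 0, ⟨_, hp.has_fpower_series_dslope_fslope⟩, dslope_same _ _, fun s => ?_⟩
  have := sub_smul_dslope x 0 s
  rw [sub_zero, h0, sub_zero, smul_eq_mul] at this
  exact this.symm

theorem analyticAt_mk {u v : ℝ → ℝ} (hu : AnalyticAt ℝ u 0) (hv : AnalyticAt ℝ v 0) :
    AnalyticAt ℝ (fun s => ((u s : ℝ) : ℂ) + ((v s : ℝ) : ℂ) * Complex.I) 0 :=
  ((Complex.ofRealCLM.analyticAt _).comp hu).add
    (((Complex.ofRealCLM.analyticAt _).comp hv).mul analyticAt_const)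

theorem curve_return {x y : ℝ → ℝ} (hx : AnalyticAt ℝ x 0) (hy : AnalyticAt ℝ y 0)
    (hx0 : x 0 = 0) (hy0 : y 0 = 0) (hne : deriv x 0 ≠ 0 ∨ deriv y 0 ≠ 0) :
    ∃ η : ℝ, 0 < η ∧ η < 1 ∧ ∃ ε1 > 0, ∃ R : ℝ → ℝ,
      Tendsto (fun s => R s / s) (𝓝[>] 0) (𝓝 η) ∧
      ∀ δ > 0, ∀ᶠ s in 𝓝[>] (0 : ℝ), 0 < R s ∧ R s < s ∧ ∃ T > 0, ∃ γ : ℝ → ℝ × ℝ,
        γ 0 = (x s, y s) ∧ γ T = (x (R s), y (R s)) ∧
        (∀ t ∈ Set.Icc 0 T, ‖γ t‖ < δ ∧ HasDerivAt γ (cuspField (γ t)) t) ∧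
        ∀ t ∈ Set.Ioo 0 T, ∀ s' ∈ Set.Ioo 0 ε1, γ t ≠ (x s', y s') := by
  have hη : ∀ m : ℕ, 0 < m → 0 < exp (-(2 * π) / m) ∧ exp (-(2 * π) / m) < 1 := by
    intro m hm
    refine ⟨exp_pos _, exp_lt_one_iff.2 (div_neg_of_neg_of_pos ?_ (by exact_mod_cast hm))⟩
    linarith [pi_pos]
  obtain ⟨x1, ax1, vx1, ex1⟩ := exists_factor hx hx0
  obtain ⟨y1, ay1, vy1, ey1⟩ := exists_factor hy hy0
  have cx := ax1.continuousAt
  have ai : AnalyticAt ℝ (fun s : ℝ => s) 0 := analyticAt_id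
  by_cases hc : deriv y 0 = 0
  · have ha : x1 0 ≠ 0 := by rw [vx1]; exact hne.resolve_right (not_not.2 hc)
    obtain ⟨y2, ay2, -, ey2⟩ := exists_factor ay1 (vy1.trans hc)
    have cy := ay2.continuousAt
    refine ⟨_, (hη 3 (by norm_num)).1, (hη 3 (by norm_num)).2, ?_⟩
    apply section_return (fun s => (x s, y s)) 3 (by norm_num)
      (fun s => ((s * y2 s ^ 2 - x1 s ^ 3 : ℝ) : ℂ) + ((s * x1 s ^ 2 * y2 s : ℝ) : ℂ) * Complex.I)
      (-(x1 0) ^ 3) (neg_ne_zero.2 (pow_ne_zero 3 ha))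
      (analyticAt_mk ((ai.mul (ay2.pow 2)).sub (ax1.pow 3)) ((ai.mul (ax1.pow 2)).mul ay2))
      (by simp) _ 0
    · have h1 : ∀ᶠ s in 𝓝 (0 : ℝ), s * y2 s ^ 2 < |x1 s| ^ 3 :=
        ContinuousAt.eventually_lt (by fun_prop) (by fun_prop) (by simp [ha])
      filter_upwards [nhdsWithin_le_nhds h1, self_mem_nhdsWithin] with s h2 h3 L φ h
      apply arg_of_re h
      have h3' : 0 < s := h3
      have h2' : s * y2 s ^ 2 < |x1 s| ^ 3 := h2
      simp only [ex1 s, ey1 s, ey2 s, abs_mul, abs_of_pos h3']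
      have := mul_lt_mul_of_pos_left h2' (pow_pos h3' 3)
      linarith
    · intro s
      simp only [ff, ex1 s, ey1 s, ey2 s]
      push_cast
      ring
  · have hc1 : y1 0 ≠ 0 := by rw [vy1]; exact hc
    have cy := ay1.continuousAt
    have h1 : ∀ᶠ s in 𝓝 (0 : ℝ), s * |x1 s| ^ 3 < y1 s ^ 2 :=
      ContinuousAt.eventually_lt (by fun_prop) (by fun_prop) (by simp [sq_pos_iff, hc1])
    have h4 : ∀ᶠ s in 𝓝 (0 : ℝ), x s ^ 2 + y s ^ 2 < 1 := by
      have c1 := hx.continuousAt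
      have c2 := hy.continuousAt
      exact ContinuousAt.eventually_lt (by fun_prop) (by fun_prop) (by simp [hx0, hy0])
    have h5 : ∀ᶠ s in 𝓝[>] (0 : ℝ), |x s| ^ 3 < y s ^ 2 := by
      filter_upwards [nhdsWithin_le_nhds h1, self_mem_nhdsWithin] with s h2 h3
      have h3' : 0 < s := h3
      have h2' : s * |x1 s| ^ 3 < y1 s ^ 2 := h2
      simp only [ex1 s, ey1 s, abs_mul, abs_of_pos h3']
      have := mul_lt_mul_of_pos_left h2' (pow_pos h3' 2)
      linarith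
    obtain ⟨θ0, hθ⟩ : ∃ θ0 : ℝ, ∀ᶠ s in 𝓝[>] (0 : ℝ), ∀ L φ, pm L φ = (x s, y s) →
        |Complex.arg (ww L φ) - θ0| < π / 2 := by
      rcases lt_or_gt_of_ne hc1 with hlt | hlt
      · refine ⟨π / 2, ?_⟩
        filter_upwards [h5, nhdsWithin_le_nhds h4, self_mem_nhdsWithin,
          nhdsWithin_le_nhds (cy.eventually_lt continuousAt_const hlt)] with s a1 a2 a3 a4 L φ h
        apply arg_of_neg h a1 a2
        simp only [ey1 s]
        exact mul_neg_of_pos_of_neg a3 a4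
      · refine ⟨-(π / 2), ?_⟩
        filter_upwards [h5, nhdsWithin_le_nhds h4, self_mem_nhdsWithin,
          nhdsWithin_le_nhds (continuousAt_const.eventually_lt cy hlt)] with s a1 a2 a3 a4 L φ h
        apply arg_of_pos h a1 a2
        simp only [ey1 s]
        exact mul_pos a3 a4
    refine ⟨_, (hη 2 (by norm_num)).1, (hη 2 (by norm_num)).2, ?_⟩
    apply section_return (fun s => (x s, y s)) 2 (by norm_num)
      (fun s => ((y1 s ^ 2 - s * x1 s ^ 3 : ℝ) : ℂ) + ((s * x1 s ^ 2 * y1 s : ℝ) : ℂ) * Complex.I)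
      ((y1 0) ^ 2) (pow_ne_zero 2 hc1)
      (analyticAt_mk ((ay1.pow 2).sub (ai.mul (ax1.pow 3))) ((ai.mul (ax1.pow 2)).mul ay1))
      (by simp) _ θ0 hθ
    intro s
    simp only [ff, ex1 s, ey1 s]
    push_cast
    ring

end Pool.Agent.Lib.MP_296844_an
end
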