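import Mathlib

set_option autoImplicit false

/-! Definitions for the return map formula at monodromic singular points. -/

namespace Pool.Agent.Lib.MP_296844_an

open Filter Topology MeasureTheory

/-- `W = ∑ a i j x^i y^(j-1) ∂x + ∑ b i j x^(i-1) y^j ∂y` near the origin. -/
def IsExpansion (W : ℝ × ℝ → ℝ × ℝ) (a b : ℕ × ℕ → ℝ) : Prop :=
  (∀ i, a (i, 0) = 0) ∧ (∀ j, b (0, j) = 0) ∧
  ∀ᶠ z in 𝓝 ((0, 0) : ℝ × ℝ),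
    HasSum (fun n : ℕ × ℕ => a n * z.1 ^ n.1 * z.2 ^ (n.2 - 1)) (W z).1 ∧
    HasSum (fun n : ℕ × ℕ => b n * z.1 ^ (n.1 - 1) * z.2 ^ n.2) (W z).2

/-- the convex hull of the union of the quadrants `(i,j) + ℝ≥0^2` over the support -/
def newtonPolygon (a b : ℕ × ℕ → ℝ) : Set (ℝ × ℝ) :=
  convexHull ℝ {z | ∃ n : ℕ × ℕ, (a n ≠ 0 ∨ b n ≠ 0) ∧ (n.1 : ℝ) ≤ z.1 ∧ (n.2 : ℝ) ≤ z.2}

/-- the Newton diagram has an edge with weights `(p,q)`: a supporting line `p i + q j = m`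
meets the Newton polygon in more than one point -/
def IsEdgeWeight (a b : ℕ × ℕ → ℝ) (p q : ℕ) : Prop :=
  0 < p ∧ 0 < q ∧ Nat.Coprime p q ∧ ∃ m : ℝ,
    (∀ z ∈ newtonPolygon a b, m ≤ p * z.1 + q * z.2) ∧
    {z ∈ newtonPolygon a b | p * z.1 + q * z.2 = m}.Nontrivial

/-- the least value `p + q + r` of `p i + q j` on the support -/
noncomputable def level (a b : ℕ × ℕ → ℝ) (p q : ℕ) : ℕ :=
  sInf {m | ∃ n : ℕ × ℕ, (a n ≠ 0 ∨ b n ≠ 0) ∧ p * n.1 + q * n.2 = m}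

/-- first component `P_(p+r)` of the lowest `(p,q)`-quasihomogeneous term -/
noncomputable def leadP (a b : ℕ × ℕ → ℝ) (p q : ℕ) (x y : ℝ) : ℝ :=
  ∑ᶠ n ∈ {n : ℕ × ℕ | p * n.1 + q * n.2 = level a b p q}, a n * x ^ n.1 * y ^ (n.2 - 1)

/-- second component `Q_(q+r)` of the lowest `(p,q)`-quasihomogeneous term -/
noncomputable def leadQ (a b : ℕ × ℕ → ℝ) (p q : ℕ) (x y : ℝ) : ℝ :=
  ∑ᶠ n ∈ {n : ℕ × ℕ | p * n.1 + q * n.2 = level a b p q}, b n * x ^ (n.1 - 1) * y ^ n.2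

/-- `F_r = P(c,s) c + Q(c,s) s` -/
noncomputable def angF (a b : ℕ × ℕ → ℝ) (p q : ℕ) (φ : ℝ) : ℝ :=
  leadP a b p q (Real.cos φ) (Real.sin φ) * Real.cos φ +
    leadQ a b p q (Real.cos φ) (Real.sin φ) * Real.sin φ

/-- `G_r = p Q(c,s) c - q P(c,s) s` -/
noncomputable def angG (a b : ℕ × ℕ → ℝ) (p q : ℕ) (φ : ℝ) : ℝ :=
  p * leadQ a b p q (Real.cos φ) (Real.sin φ) * Real.cos φ -
    q * leadP a b p q (Real.cos φ) (Real.sin φ) * Real.sin φ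

/-- the Cauchy principal value of the integral of `F/G` over `[0, 2π]` exists and equals `ξ`:
the `ε`-neighbourhoods of the finitely many zeros of `G` on the circle are cut out and `ε → 0+` -/
def HasPV (F G : ℝ → ℝ) (ξ : ℝ) : Prop :=
  {φ ∈ Set.Icc 0 (2 * Real.pi) | G φ = 0}.Finite ∧
  (∀ ε > 0, IntegrableOn (fun φ => F φ / G φ)
    {φ ∈ Set.Icc 0 (2 * Real.pi) | ∀ ψ, G ψ = 0 → ε ≤ |φ - ψ|}) ∧
  Tendsto (fun ε => ∫ φ in {φ ∈ Set.Icc 0 (2 * Real.pi) | ∀ ψ, G ψ = 0 → ε ≤ |φ - ψ|},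
    F φ / G φ) (𝓝[>] 0) (𝓝 ξ)

/-- `R` is the first return map of the field `W` (defined on `D`) to the half-axis `y = 0, x > 0`,
on the transversal segment `0 < x < ε` -/
def IsReturnMap (W : ℝ × ℝ → ℝ × ℝ) (D : Set (ℝ × ℝ)) (ε : ℝ) (R : ℝ → ℝ) : Prop :=
  ∀ x ∈ Set.Ioo 0 ε, (W (x, 0)).2 ≠ 0 ∧ 0 < R x ∧
    ∃ T > 0, ∃ γ : ℝ → ℝ × ℝ, γ 0 = (x, 0) ∧ γ T = (R x, 0) ∧
      (∀ t ∈ Set.Icc 0 T, γ t ∈ D ∧ HasDerivAt γ (W (γ t)) t) ∧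
      ∀ t ∈ Set.Ioo 0 T, ¬ ((γ t).2 = 0 ∧ 0 < (γ t).1)

/-- the polynomial vector field of the example -/
def cuspField (z : ℝ × ℝ) : ℝ × ℝ :=
  (-2 * z.2 ^ 3 + 2 * z.1 ^ 3 * z.2 - z.1 ^ 4 * z.2 - z.1 ^ 2 * z.2 ^ 2 - z.1 ^ 5,
    3 * z.1 ^ 5 - 3 * z.1 ^ 2 * z.2 ^ 2 + 2 * z.1 ^ 3 * z.2 ^ 2 - 2 * z.1 * z.2 ^ 3 - z.1 ^ 4 * z.2)

end Pool.Agent.Lib.MP_296844_an
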